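import Pool.Agent.TH929.J29c
import Pool.Agent.W719.AX.FinA

/-!
# Job 29 (UV-STEPB): the induction step at an encircled vertex
-/

set_option autoImplicit false
set_option maxHeartbeats 1000000

namespace Pool.Agent.TH929.J29

open Filter Finset Topology Metric
open Pool.Agent.W711.HT hiding XX
open Pool.Agent.W719.AX
open Pool.Agent.W85.HT
open Pool.Agent.W688.AX (sq3_ev sqrt4 ux_one)
open Pool.Agent.TH563.UV (UN Eb stpb GoodU S_STEPB)
open scoped Real

lemma stpb_eq (a : ℤ) (X : ℕ → ℂ → ℂ) (N : ℕ) (p : ℂ) : stpb true a X N p =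
    upp (1 / N) fun w => Ea a N w * (UN N w * (X N w * Pool.Agent.W711.HT.ker N w p)) * kr N w := by
  unfold Pool.Agent.TH563.UV.stpb Pool.Agent.TH563.UV.Eb
  congr 1
  funext w
  simp only [if_true]
  ring

lemma stpb_stp (a : ℤ) (X : ℕ → ℂ → ℂ) :
    stpb true a X = stp a (fun N w => UN N w * X N w) := by
  funext N p
  rw [stpb_eq]
  unfold stp
  congr 1
  funext w
  ring

section
variable {ρ τ κ c : ℝ} {s dl : ℂ → ℂ → ℂ} (hK : KD ρ τ κ c s dl)
include hK

lemma sd {p : ℂ} (hp : p ∈ Rc (3 * ρ) (3 * τ)) :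
    DifferentiableOn ℂ (fun w => s w p) (Rc (3 * ρ) (3 * τ)) := by
  have : DifferentiableOn ℂ (fun w : ℂ => (w, p)) (Rc (3 * ρ) (3 * τ)) :=
    (differentiable_id.prodMk (differentiable_const p)).differentiableOn
  exact hK.san.comp this (fun w hw => ⟨hw, hp⟩)

lemma m0 : (0 : ℂ) ∈ Rc (3 * ρ) (3 * τ) := by
  obtain ⟨hρ0, hρ1⟩ := hK.hρ
  obtain ⟨hτ0, hτ1⟩ := hK.hτ
  refine ⟨?_, ?_⟩
  · rw [Complex.zero_re, abs_zero]; linarith
  · rw [Complex.zero_im, abs_zero]; linarith

lemma sd2 : DifferentiableOn ℂ (fun w => s 0 w) (Rc (3 * ρ) (3 * τ)) := by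
  have : DifferentiableOn ℂ (fun w : ℂ => ((0 : ℂ), w)) (Rc (3 * ρ) (3 * τ)) :=
    ((differentiable_const (0 : ℂ)).prodMk differentiable_id).differentiableOn
  exact hK.san.comp this (fun w hw => ⟨m0 hK, hw⟩)

lemma sev2 {w : ℂ} (hw : w ∈ Rc (3 * ρ) (3 * τ)) : s 0 (-w) = s 0 w := by
  have hw' : -w ∈ Rc (3 * ρ) (3 * τ) := by
    refine ⟨?_, ?_⟩
    · rw [Complex.neg_re, abs_neg]; exact hw.1
    · rw [Complex.neg_im, abs_neg]; exact hw.2
  rw [hK.sym 0 (m0 hK) _ hw', hK.ev w hw 0 (m0 hK), hK.sym w hw 0 (m0 hK)]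

/-- all the bounds of the exponents -/
lemma bounds {ε₀ : ℝ} {t : ℕ} {X : ℕ → ℂ → ℂ} {F : ℂ → ℂ} (hX : GoodU ρ τ κ ε₀ s t X F) :
    ∃ L : ℝ, 0 ≤ L ∧ (∀ x y : ℝ, |x| ≤ ρ → |y| ≤ τ →
        ‖F (x + y * Complex.I) - F x‖ ≤ L * ((|x| + |y|) * |y|)) ∧
      ∀ p ∈ Rc (3 * ρ) (3 * τ), ∀ x y : ℝ, |x| ≤ ρ → |y| ≤ τ →
        ‖(F (x + y * Complex.I) + s (x + y * Complex.I) p) - (F x + s x p)‖ ≤
          L * ((|x| + |y|) * |y|) := by
  obtain ⟨hρ0, hρ1⟩ := hK.hρ
  obtain ⟨hτ0, hτ1⟩ := hK.hτ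
  have hKK : Kc (2 * ρ) (2 * τ) ⊆ Rc (3 * ρ) (3 * τ) := by
    intro w hw
    rw [Kc_mem] at hw
    exact ⟨by linarith [hw.1], by linarith [hw.2]⟩
  have hRK : Rc (2 * ρ) (2 * τ) ⊆ Kc (2 * ρ) (2 * τ) := by
    intro w hw
    rw [Kc_mem]
    exact ⟨hw.1.le, hw.2.le⟩
  have hR23 : Rc (2 * ρ) (2 * τ) ⊆ Rc (3 * ρ) (3 * τ) := hRK.trans hKK
  obtain ⟨BF, hBF⟩ := (Kc_compact (2 * ρ) (2 * τ)).exists_bound_of_continuousOn
    (hX.Fan.continuousOn.mono hKK)
  obtain ⟨Bs, hBs⟩ := hK.sbd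
  have hBF0 : 0 ≤ BF := (norm_nonneg _).trans (hBF 0 (hRK (by
    refine ⟨?_, ?_⟩
    · rw [Complex.zero_re, abs_zero]; linarith
    · rw [Complex.zero_im, abs_zero]; linarith)))
  have hBs0 : 0 ≤ Bs := (norm_nonneg _).trans (hBs 0 (m0 hK) 0 (m0 hK))
  obtain ⟨L, hL, h⟩ := up_bd (B := BF + Bs) hρ0 hτ0 (by positivity)
  refine ⟨L, hL, ?_, ?_⟩
  · refine h F (hX.Fan.mono hR23) (fun w hw => ?_) (fun w hw => hX.Fev w (hR23 hw))
    linarith [hBF w (hRK hw)]
  · intro p hp
    refine h (fun w => F w + s w p) ((hX.Fan.add (sd hK hp)).mono hR23) (fun w hw => ?_)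
      (fun w hw => ?_)
    · refine (norm_add_le _ _).trans ?_
      exact add_le_add (hBF w (hRK hw)) (hBs w (hR23 hw) p hp)
    · show F (-w) + s (-w) p = F w + s w p
      rw [hX.Fev w (hR23 hw), hK.ev w (hR23 hw) p hp]

/-- `X` near the real segment -/
lemma X_near {ε₀ : ℝ} {t : ℕ} {X : ℕ → ℂ → ℂ} {F : ℂ → ℂ} (hX : GoodU ρ τ κ ε₀ s t X F)
    (hF : ∀ x : ℝ, |x| ≤ ρ → (F x).re ≤ (F 0).re) {ε : ℝ} (hε : 0 < ε) :
    ∀ᶠ N : ℕ in atTop, ∀ x y : ℝ, |x| ≤ ρ → |y| ≤ 1 / N →
      ‖X N (x + y * Complex.I)‖ ≤ Real.exp (N * ((F 0).re + ε)) := by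
  obtain ⟨hρ0, hρ1⟩ := hK.hρ
  obtain ⟨hτ0, hτ1⟩ := hK.hτ
  obtain ⟨L, hL, hb, -⟩ := bounds hK hX
  have hev : ∀ᶠ N : ℕ in atTop, (1 : ℝ) / N < min τ (ε / (2 * (L + 1))) := by
    have : Tendsto (fun N : ℕ => (1 : ℝ) / (N : ℝ)) atTop (𝓝 0) :=
      tendsto_const_div_atTop_nhds_zero_nat _
    exact this.eventually_lt_const (lt_min hτ0 (by positivity))
  filter_upwards [hX.mw (ε / 2) (by positivity), hev] with N h1 h2 x y hx hy
  have hN' : (0 : ℝ) ≤ N := Nat.cast_nonneg N
  have h3 : |y| ≤ τ := hy.trans (h2.le.trans (min_le_left _ _))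
  have h4 : |y| ≤ ε / (2 * (L + 1)) := hy.trans (h2.le.trans (min_le_right _ _))
  have m1 : ((x : ℂ) + y * Complex.I) ∈ Rc (2 * ρ) (2 * τ) := by
    refine ⟨?_, ?_⟩
    · rw [xy_re]; linarith
    · rw [xy_im]; linarith
  obtain ⟨k1, k2⟩ := h1 _ m1
  rw [← Real.log_le_iff_le_exp (norm_pos_iff.2 k1)]
  have k3 := (abs_le.1 k2).2
  have k4 := (Complex.re_le_norm _).trans (hb x y hx h3)
  rw [Complex.sub_re] at k4
  have k5 := hF x hx
  have k6 : L * ((|x| + |y|) * |y|) ≤ ε / 2 := by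
    have a1 : |x| + |y| ≤ 1 := by linarith
    have a2 : (|x| + |y|) * |y| ≤ 1 * |y| := mul_le_mul_of_nonneg_right a1 (abs_nonneg _)
    have a3 : L * ((|x| + |y|) * |y|) ≤ L * (1 * |y|) := mul_le_mul_of_nonneg_left a2 hL
    rw [le_div_iff₀ (by positivity)] at h4
    have a4 := abs_nonneg y
    nlinarith
  have k8 : (F (x + y * Complex.I)).re ≤ (F 0).re + ε / 2 := by linarith
  have k9 := mul_le_mul_of_nonneg_left k8 hN'
  linarith

end

/-- the induction step and the last step at a vertex with a circle -/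
theorem stepb : S_STEPB := by
  intro ρ τ κ c s dl hK ρ₂ τ₂ Ak hρ₂ hτ₂ hAk ε₀ hε0 hε1 hH
  have hUPB : S_UPB := upb
  have hSTPE : S_STPE := Pool.Agent.W398.HT.t_STPE
  have hSEQ : S_SEQ := Pool.Agent.W583.HT.seq
  have hLAPC : S_LAPC := Pool.Agent.W588.HT.lapc
  have hLOG : S_LOG := Pool.Agent.W930.HTLog.main
  obtain ⟨hρ0, hρ1⟩ := hK.hρ
  obtain ⟨hτ0, hτ1⟩ := hK.hτ
  obtain ⟨hκ0, hκ1⟩ := hK.hκ
  have hc0 := hK.hc
  have hρ20 := hAk.hρ
  have hτ20 := hAk.hτ
  have hπ := Real.pi_gt_three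
  have hρπ : ρ ≤ π := by linarith
  have hm0 := m0 hK
  have hopen3 : IsOpen (Rc (3 * ρ) (3 * τ)) := open_Rc _ _
  have hKK : Kc (2 * ρ) (2 * τ) ⊆ Rc (3 * ρ) (3 * τ) := by
    intro w hw
    rw [Kc_mem] at hw
    exact ⟨by linarith [hw.1], by linarith [hw.2]⟩
  have hRK : Rc (2 * ρ) (2 * τ) ⊆ Kc (2 * ρ) (2 * τ) := by
    intro w hw
    rw [Kc_mem]
    exact ⟨hw.1.le, hw.2.le⟩
  have hR23 : Rc (2 * ρ) (2 * τ) ⊆ Rc (3 * ρ) (3 * τ) := hRK.trans hKK
  have hKc : Kc ρ₂ τ₂ ⊆ Rc (3 * ρ) (3 * τ) := by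
    intro w hw
    rw [Kc_mem] at hw
    exact ⟨by linarith [hw.1], by linarith [hw.2]⟩
  have hSK : Rc ρ₂ τ₂ ⊆ Kc ρ₂ τ₂ := by
    intro w hw
    rw [Kc_mem]
    exact ⟨hw.1.le, hw.2.le⟩
  have hRr : Rc ρ₂ τ₂ ⊆ Rc (3 * ρ) (3 * τ) := hSK.trans hKc
  have hball : ∀ u ∈ ball (0 : ℂ) (min ρ₂ τ₂), u ∈ Rc ρ₂ τ₂ := by
    intro u hu
    rw [mem_ball_zero_iff] at hu
    exact ⟨(Complex.abs_re_le_norm u).trans_lt (hu.trans_le (min_le_left _ _)),
      (Complex.abs_im_le_norm u).trans_lt (hu.trans_le (min_le_right _ _))⟩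
  -- decrease of `F`
  have hFdec : ∀ (t : ℕ) (X : ℕ → ℂ → ℂ) (F : ℂ → ℂ), GoodU ρ τ κ ε₀ s t X F →
      ∀ x : ℝ, |x| ≤ ρ → (F x).re ≤ (F 0).re := by
    intro t X F hX x hx
    have hmx : (x : ℂ) ∈ Rc (3 * ρ) (3 * τ) := by
      refine ⟨?_, ?_⟩
      · rw [Complex.ofReal_re]; linarith
      · rw [Complex.ofReal_im, abs_zero]; linarith
    rcases Nat.eq_zero_or_pos t with h | h
    · have h1 := hX.Fcl x hmx
      rw [h, Nat.cast_zero, zero_mul, Nat.cast_zero, zero_mul, sub_zero] at h1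
      have h2 : F x - F 0 = 0 := norm_le_zero_iff.1 h1
      have h3 : F x = F 0 := sub_eq_zero.1 h2
      rw [h3]
    · have h1 := hH t F h hX.Fan hX.Fev hX.Fcl x hx
      have h2 : 0 ≤ c / 4 * x ^ 2 := by positivity
      linarith
  constructor
  · -- the step
    intro t m X F A hX hA a
    have hFd := hFdec t X F hX
    obtain ⟨L, hL, -, hLs⟩ := bounds hK hX
    obtain ⟨hA1, hA2⟩ := hSTPE a (fun N w => UN N w * X N w)
      (fun N => (UN_diff N).mul (hX.an N))
    rw [← stpb_stp] at hA1 hA2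
    have hYd : ∀ N, ∀ p ∈ Rc (3 * ρ) (3 * τ),
        Differentiable ℂ (fun w => X N w * Pool.Agent.W711.HT.ker N w p) :=
      fun N p _ => (hX.an N).mul (ker_diff N p)
    have hMW : ∀ ε : ℝ, 0 < ε → ∀ᶠ N : ℕ in atTop, ∀ w ∈ Rc (2 * ρ) (2 * τ),
        ∀ p ∈ Rc (3 * ρ) (3 * τ), X N w * Pool.Agent.W711.HT.ker N w p ≠ 0 ∧
        |Real.log ‖X N w * Pool.Agent.W711.HT.ker N w p‖ - N * (F w + s w p).re| ≤ ε * N := by
      intro ε hε
      filter_upwards [hX.mw (ε / 2) (by positivity), hK.mw (ε / 2) (by positivity)] with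
        N h1 h2 w hw p hp
      obtain ⟨k1, k2⟩ := h1 w hw
      obtain ⟨k3, k4⟩ := h2 w (hR23 hw) p hp
      refine ⟨mul_ne_zero k1 k3, ?_⟩
      rw [norm_mul, Real.log_mul (norm_ne_zero_iff.2 k1) (norm_ne_zero_iff.2 k3), Complex.add_re]
      rw [abs_le] at k2 k4 ⊢
      constructor
      · linarith [k2.1, k4.1]
      · linarith [k2.2, k4.2]
    have hdec : ∀ p ∈ Rc (3 * ρ) (3 * τ), ∀ x : ℝ, |x| ≤ ρ →
        (F x + s x p).re ≤ (F 0 + s 0 p).re - c / 2 * x ^ 2 := by
      intro p hp x hx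
      rw [Complex.add_re, Complex.add_re]
      have := hFd x hx
      have := s_dec hK hp hx
      linarith
    -- localisation
    obtain ⟨κ₁, hκ₁, hloc⟩ := locb hUPB (a := a) (K := Rc (3 * ρ) (3 * τ))
      (Y := fun N w p => X N w * Pool.Agent.W711.HT.ker N w p) (G := fun w p => F w + s w p)
      (c₀ := c / 2) (L := L) (τ₁ := τ) hρ0 hρπ hτ0 hτ0 hYd hMW (by positivity) hL hdec
      (by
        intro p hp x y hx hy hy'
        have h1 := (Complex.re_le_norm _).trans (hLs p hp x y hx (by rwa [abs_of_nonneg hy]))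
        rw [Complex.sub_re, abs_of_nonneg hy] at h1
        linarith)
      ⟨κ, hκ0, by
        filter_upwards [hX.gl1, hK.far] with N h1 h2 p hp x y hx1 hx2 hy
        have k1 := h1 x y hx1 hx2 hy
        have k2 := h2 x y hx1 hx2 hy p hp
        show ‖X N (x + y * Complex.I) * Pool.Agent.W711.HT.ker N (x + y * Complex.I) p‖ ≤ _
        rw [norm_mul]
        refine (mul_le_mul k1 k2 (norm_nonneg _) (Real.exp_pos _).le).trans ?_
        rw [← Real.exp_add, ← mul_add, Complex.add_re]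
        apply Real.exp_le_exp.2
        apply mul_le_mul_of_nonneg_left _ (Nat.cast_nonneg N)
        have : 0 ≤ (t : ℝ) * (κ / 2) := by positivity
        linarith⟩
    have hF'd : DifferentiableOn ℂ (fun ψ => F 0 + s 0 ψ + π * Complex.I)
        (Rc (3 * ρ) (3 * τ)) := ((sd2 hK).const_add _).add_const _
    have hre : ∀ ψ : ℂ, (F 0 + s 0 ψ + π * Complex.I).re = (F 0 + s 0 ψ).re := by
      intro ψ
      rw [Complex.add_re (F 0 + s 0 ψ)]
      simp
    have hpos : ∀ ψ ∈ Rc (3 * ρ) (3 * τ), κ ≤ (F 0 + s 0 ψ).re := by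
      intro ψ hψ
      rw [Complex.add_re]
      have h2 := hK.slow ψ hψ
      have h3 := hX.pos
      linarith
    have hscont : ContinuousOn (fun p : ℂ × ℂ => s p.1 p.2)
        (Kc (2 * ρ) (2 * τ) ×ˢ Kc (2 * ρ) (2 * τ)) :=
      hK.san.continuousOn.mono (Set.prod_mono hKK hKK)
    -- the limit along sequences
    have hseq : ∀ (p : ℕ → ℂ) (p₀ : ℂ), p₀ ∈ Kc (2 * ρ) (2 * τ) →
        (∀ N, p N ∈ Kc (2 * ρ) (2 * τ)) → Tendsto p atTop (𝓝 p₀) →
        Tendsto (fun N => Real.log ‖stpb true a X N (p N)‖ / N) atTop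
          (𝓝 (F 0 + s 0 p₀).re) := by
      intro p p₀ hp0 hp hlim
      have hp0' := hKK hp0
      have hunif : ∀ ε : ℝ, 0 < ε → ∀ᶠ N : ℕ in atTop, ∀ w ∈ Kc (2 * ρ) (2 * τ),
          |(s w (p N)).re - (s w p₀).re| ≤ ε := by
        intro ε hε
        filter_upwards [unif (Kc_compact _ _) hscont hp hp0 hlim hε] with N h1 w hw
        have k1 := (Complex.abs_re_le_norm _).trans (h1 w hw).le
        rwa [Complex.sub_re] at k1
      have hGd : DifferentiableOn ℂ (fun w => F w + s w p₀) (Rc (3 * ρ) (3 * τ)) :=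
        hX.Fan.add (sd hK hp0')
      have hG0 : deriv (fun w => F w + s w p₀) 0 = 0 :=
        even_deriv_zero hopen3 hm0 hGd (fun w hw => by
          show F (-w) + s (-w) p₀ = F w + s w p₀
          rw [hX.Fev w hw, hK.ev w hw p₀ hp0'])
      have hG2 := deriv2_le (c₀ := c / 2) hopen3 hm0 hGd hG0 hρ0 (hdec p₀ hp0')
      have hM := lapB hLAPC hLOG (Y := fun N w => X N w * Pool.Agent.W711.HT.ker N w (p N))
        (G := fun w => F w + s w p₀) (a := a) hρ0 hτ0
        (Eventually.of_forall fun N => ((hX.an N).mul (ker_diff N (p N))).differentiableOn)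
        (hGd.mono hR23)
        (by
          intro ε hε
          filter_upwards [hMW (ε / 2) (by positivity), hunif (ε / 2) (by positivity)] with
            N h1 h2 w hw
          obtain ⟨k1, k2⟩ := h1 w hw (p N) (hKK (hp N))
          refine ⟨k1, ?_⟩
          have k3 := h2 w (hRK hw)
          have hN0 : (0 : ℝ) ≤ N := Nat.cast_nonneg N
          have k4 : |N * ((s w (p N)).re - (s w p₀).re)| ≤ N * (ε / 2) := by
            rw [abs_mul, abs_of_nonneg hN0]
            exact mul_le_mul_of_nonneg_left k3 hN0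
          rw [Complex.add_re] at k2 ⊢
          rw [abs_le] at k2 k4 ⊢
          constructor
          · linarith [k2.1, k4.1]
          · linarith [k2.2, k4.2])
        hG0 (by linarith)
        (by
          intro x hx hx0
          have h1 := hdec p₀ hp0' x hx
          have h2 : 0 < c / 2 * x ^ 2 := by positivity
          linarith)
      refine log_lim (M := fun N : ℕ => (-Complex.I) * ∫ x in (-ρ)..ρ, Ea a N x *
        (X N x * Pool.Agent.W711.HT.ker N x (p N))) (T := fun N : ℕ => stpb true a X N (p N))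
        (κ := κ₁ / 2) (C := 1) (by positivity) zero_le_one ?_ ?_
      · intro ε hε
        filter_upwards [hM ε hε] with N h1
        rw [norm_mul, norm_neg, Complex.norm_I, one_mul]
        exact h1
      · filter_upwards [hloc, hunif (κ₁ / 2) (by positivity)] with N h1 h2
        have k1 := h1 (p N) (hKK (hp N))
        have k2 := h2 0 (hRK (by
          refine ⟨?_, ?_⟩
          · rw [Complex.zero_re, abs_zero]; linarith
          · rw [Complex.zero_im, abs_zero]; linarith))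
        rw [stpb_eq, one_mul]
        refine k1.trans (Real.exp_le_exp.2 (mul_le_mul_of_nonneg_left ?_ (Nat.cast_nonneg N)))
        rw [Complex.add_re, Complex.add_re]
        linarith [(abs_le.1 k2).2]
    have hunif := hSEQ ℂ (Kc (2 * ρ) (2 * τ)) (Kc_compact _ _)
      (fun N ψ' => Real.log ‖stpb true a X N ψ'‖ / N)
      (fun ψ' => (F 0 + s 0 ψ').re)
      (Complex.continuous_re.comp_continuousOn (((sd2 hK).const_add _).continuousOn.mono hKK))
      hseq
    have hmw : MW (stpb true a X) (fun ψ => F 0 + s 0 ψ + π * Complex.I)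
        (Rc (2 * ρ) (2 * τ)) := by
      intro ε hε
      filter_upwards [hunif (min ε (κ / 4)) (lt_min hε (by positivity)), eventually_gt_atTop 0] with
        N h1 h2 ψ hψ
      have hN' : (0 : ℝ) < N := by exact_mod_cast h2
      have k1 := h1 ψ (hRK hψ)
      simp only [hre]
      refine ⟨?_, ?_⟩
      · intro h0
        rw [h0, norm_zero, Real.log_zero, zero_div, zero_sub, abs_neg] at k1
        have k2 := hpos ψ (hR23 hψ)
        have k3 := (le_abs_self _).trans k1
        have k4 := min_le_right ε (κ / 4)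
        linarith
      · have k2 : |Real.log ‖stpb true a X N ψ‖ / N - (F 0 + s 0 ψ).re| ≤ ε :=
          k1.trans (min_le_left _ _)
        have k3 : Real.log ‖stpb true a X N ψ‖ - N * (F 0 + s 0 ψ).re =
            N * (Real.log ‖stpb true a X N ψ‖ / N - (F 0 + s 0 ψ).re) := by
          field_simp
        rw [k3, abs_mul, abs_of_pos hN', mul_comm ε]
        exact mul_le_mul_of_nonneg_left k2 hN'.le
    -- far away
    obtain ⟨Cu, hCu, hub⟩ := upp_bd hUPB a
    have hgl1 : ∀ᶠ N : ℕ in atTop, ∀ x y : ℝ, ρ ≤ |x| → |x| ≤ π → |y| ≤ 1 / N →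
        ‖stpb true a X N (x + y * Complex.I)‖ ≤ Real.exp (N * ((F 0 + s 0 0).re - κ / 2)) := by
      filter_upwards [X_near hK hX hFd (ε := κ / 16) (by positivity), hub ρ hρ0 hρπ, hX.gl1,
        hK.farg, hK.farb, nat_exp_ev (show 0 < κ / 4 by positivity) (6 * Cu) 0,
        eventually_gt_atTop 0] with N h1 h2 h3 h4 h5 h6 h7 x' y' hx1' hx2' hy'
      have hN' : (0 : ℝ) < N := by exact_mod_cast h7
      rw [stpb_eq]
      refine (h2 (fun w => UN N w * (X N w * Pool.Agent.W711.HT.ker N w (x' + y' * Complex.I)))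
        (3 * N * Real.exp (N * ((F 0).re + κ / 16 + (2 * bet - 5 / 4 * κ))))
        (3 * N * Real.exp (N * ((F 0).re + (2 * bet - 2 * κ))))
        ((UN_diff N).continuous.mul ((hX.an N).continuous.mul (ker_diff N _).continuous))
        ?_ ?_).trans ?_
      · intro x y hx hy
        have k1 := h1 x y hx hy
        have k2 := h4 x y x' y' (hx.trans hρπ) hx1' hx2' hy hy'
        have k3 := mul_le_mul k1 k2 (norm_nonneg _) (Real.exp_pos _).le
        rw [← Real.exp_add, ← mul_add] at k3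
        rw [norm_mul, norm_mul (X N _)]
        exact mul_le_mul (UN_bd h7 hy) k3 (by positivity) (by positivity)
      · intro x y hx1 hx2 hy
        have k1 : ‖X N (x + y * Complex.I)‖ ≤ Real.exp (N * (F 0).re) := by
          refine (h3 x y hx1 hx2 hy).trans (Real.exp_le_exp.2
            (mul_le_mul_of_nonneg_left ?_ hN'.le))
          have : 0 ≤ (t : ℝ) * (κ / 2) := by positivity
          linarith
        have k2 := h5 x y x' y' hx1 hx2 hx1' hx2' hy hy'
        have k3 := mul_le_mul k1 k2 (norm_nonneg _) (Real.exp_pos _).le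
        rw [← Real.exp_add, ← mul_add] at k3
        rw [norm_mul, norm_mul (X N _)]
        exact mul_le_mul (UN_bd h7 hy) k3 (by positivity) (by positivity)
      · obtain ⟨V, hV⟩ : ∃ V : ℝ, V = (F 0).re + 2 * bet := ⟨_, rfl⟩
        have e0 : (F 0 + s 0 0).re = V := by
          rw [Complex.add_re, hK.zero, Complex.ofReal_re, hV]
        rw [e0]
        have e1 : Real.exp (N * ((F 0).re + κ / 16 + (2 * bet - 5 / 4 * κ))) ≤
            Real.exp (N * (V - κ)) :=
          Real.exp_le_exp.2 (mul_le_mul_of_nonneg_left (by linarith) hN'.le)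
        have e2 : Real.exp (N * ((F 0).re + (2 * bet - 2 * κ))) ≤ Real.exp (N * (V - κ)) :=
          Real.exp_le_exp.2 (mul_le_mul_of_nonneg_left (by linarith) hN'.le)
        have e3 : Real.exp (κ / 4 * N) * Real.exp (N * (V - κ)) ≤
            Real.exp (N * (V - κ / 2)) := by
          rw [← Real.exp_add]
          refine Real.exp_le_exp.2 ?_
          have : 0 ≤ N * κ := by positivity
          linarith
        have e4 := mul_le_mul_of_nonneg_right h6 (Real.exp_pos (N * (V - κ))).le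
        have e5 := mul_le_mul_of_nonneg_left e1 (show 0 ≤ Cu * (3 * N) by positivity)
        have e6 := mul_le_mul_of_nonneg_left e2 (show 0 ≤ Cu * (3 * N) by positivity)
        linarith
    -- expansion
    obtain ⟨Bs, hBs⟩ := hK.sbd
    obtain ⟨BF, hBF⟩ := (Kc_compact ρ₂ τ₂).exists_bound_of_continuousOn
      (hX.Fan.continuousOn.mono hKc)
    obtain ⟨B, hB, hB0⟩ := locxb f_LX Pool.Agent.W303.AX.uxmul (δ := min ρ₂ τ₂) (c := c) (a := a)
      (S := Rc ρ₂ τ₂) (X := X) (F := F) (A := A) (k := fun N w p => kx s N (w, p)) (k' := Ak)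
      (σ := s) (V := fun p => F 0 + s 0 p)
      (W := fun N p => ((Real.sqrt N : ℝ) : ℂ) ^ 3 * stpb true a X N p)
      (lt_min hρ20 hτ20) hc0 hA hX.an (hX.Fan.mono hRr) hball
      ⟨max BF Bs, fun w hw => ⟨(hBF w (hSK hw)).trans (le_max_left _ _), fun p hp =>
        (hBs w (hRr hw) p (hRr hp)).trans (le_max_right _ _)⟩⟩
      (by
        intro N p hp
        have h1 : ContinuousOn (fun w => s w p) (Rc ρ₂ τ₂) :=
          ((sd hK (hRr hp)).mono hRr).continuousOn
        have h2 : ContinuousOn (fun w => Pool.Agent.W711.HT.ker N w p) (Rc ρ₂ τ₂) :=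
          (ker_diff N p).continuous.continuousOn
        unfold kx
        exact (continuousOn_const.mul
          (Complex.continuous_exp.comp_continuousOn (continuousOn_const.mul h1).neg)).mul h2)
      (fun p hp => (sd hK (hRr hp)).mono hRr) hAk.ux (fun n p hp => hAk.d1 n p hp) hAk.nz
      (by
        intro p hp
        have hGd : DifferentiableOn ℂ (fun w => F w + s w p) (Rc (3 * ρ) (3 * τ)) :=
          hX.Fan.add (sd hK (hRr hp))
        have hG0 : deriv (fun w => F w + s w p) 0 = 0 :=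
          even_deriv_zero hopen3 hm0 hGd (fun w hw => by
            show F (-w) + s (-w) p = F w + s w p
            rw [hX.Fev w hw, hK.ev w hw p (hRr hp)])
        have hG2 := deriv2_le (c₀ := c / 2) hopen3 hm0 hGd hG0 hρ0 (hdec p (hRr hp))
        exact ⟨rfl, hG0, by linarith⟩)
      (by
        intro δ' hδ'0 hδ'
        have hδρ : δ' ≤ ρ := by
          have := min_le_left ρ₂ τ₂
          linarith
        obtain ⟨κ₂, hκ₂, hout⟩ := outer (a := a) (K := Rc (3 * ρ) (3 * τ))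
          (Y := fun N w p => X N w * Pool.Agent.W711.HT.ker N w p) (G := fun w p => F w + s w p)
          (c₀ := c / 2) hρ0 (by linarith) hτ0 hδ'0 hδρ hYd hMW (by positivity) hdec
        refine ⟨min κ₁ κ₂ / 2, by have := lt_min hκ₁ hκ₂; positivity, ?_⟩
        filter_upwards [hloc, hout, sq3_ev (κ := min κ₁ κ₂ / 4)
          (by have := lt_min hκ₁ hκ₂; positivity), ev_exp (show 0 < min κ₁ κ₂ / 4 by
            have := lt_min hκ₁ hκ₂; positivity) 2] with N h1 h2 h3 h4 p hp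
        have hN' : (0 : ℝ) ≤ N := Nat.cast_nonneg N
        have k1 := h1 p (hRr hp)
        have k2 := h2 p (hRr hp)
        obtain ⟨V, hV⟩ : ∃ V : ℝ, V = (F 0 + s 0 p).re := ⟨_, rfl⟩
        rw [← hV] at k1 k2
        have e1 : (∫ x in (-δ')..δ', Ea a N x *
            (X N x * (Complex.exp (N * s x p) * kx s N (x, p)))) =
            ((Real.sqrt N : ℝ) : ℂ) ^ 3 * ∫ x in (-δ')..δ', Ea a N x *
              (X N x * Pool.Agent.W711.HT.ker N x p) := by
          rw [← intervalIntegral.integral_const_mul]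
          congr 1
          funext x
          unfold kx
          have e2 : Complex.exp (N * s x p) * Complex.exp (-(N * s x p)) = 1 := by
            rw [← Complex.exp_add, add_neg_cancel, Complex.exp_zero]
          push_cast
          linear_combination (Ea a N x * X N x * ((Real.sqrt N : ℝ) : ℂ) ^ 3 *
            Pool.Agent.W711.HT.ker N x p) * e2
        rw [e1, stpb_eq]
        obtain ⟨I1, hI1⟩ : ∃ I1 : ℂ, I1 = ∫ x in (-ρ)..ρ, Ea a N x *
          (X N x * Pool.Agent.W711.HT.ker N x p) := ⟨_, rfl⟩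
        obtain ⟨I2, hI2⟩ : ∃ I2 : ℂ, I2 = ∫ x in (-δ')..δ', Ea a N x *
          (X N x * Pool.Agent.W711.HT.ker N x p) := ⟨_, rfl⟩
        rw [← hI1] at k1 k2
        rw [← hI2] at k2 ⊢
        obtain ⟨T, hT⟩ : ∃ T : ℂ, T = upp (1 / N) fun w => Ea a N w * (UN N w *
          (X N w * Pool.Agent.W711.HT.ker N w p)) * kr N w := ⟨_, rfl⟩
        rw [← hT] at k1 ⊢
        have e3 : ((Real.sqrt N : ℝ) : ℂ) ^ 3 * T - (-Complex.I) * (((Real.sqrt N : ℝ) : ℂ) ^ 3 * I2)
            = ((Real.sqrt N : ℝ) : ℂ) ^ 3 * ((T - (-Complex.I) * I1) +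
              (-Complex.I) * (I1 - I2)) := by ring
        rw [e3, norm_mul]
        have h5 : ‖((Real.sqrt N : ℝ) : ℂ) ^ 3‖ = (Real.sqrt N) ^ 3 := by
          rw [norm_pow, Complex.norm_real, Real.norm_eq_abs, abs_of_nonneg (Real.sqrt_nonneg _)]
        rw [h5]
        have k3 : ‖(T - (-Complex.I) * I1) + (-Complex.I) * (I1 - I2)‖ ≤
            Real.exp (min κ₁ κ₂ / 4 * N) * Real.exp (N * (V - min κ₁ κ₂)) := by
          refine (norm_add_le _ _).trans ?_
          rw [norm_mul (-Complex.I), norm_neg, Complex.norm_I, one_mul]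
          have a1 : Real.exp (N * (V - κ₁)) ≤ Real.exp (N * (V - min κ₁ κ₂)) :=
            Real.exp_le_exp.2 (mul_le_mul_of_nonneg_left
              (by linarith [min_le_left κ₁ κ₂]) hN')
          have a2 : Real.exp (N * (V - κ₂)) ≤ Real.exp (N * (V - min κ₁ κ₂)) :=
            Real.exp_le_exp.2 (mul_le_mul_of_nonneg_left
              (by linarith [min_le_right κ₁ κ₂]) hN')
          have a3 := mul_le_mul_of_nonneg_right h4 (Real.exp_pos (N * (V - min κ₁ κ₂))).le
          linarith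
        refine (mul_le_mul h3 k3 (norm_nonneg _) (Real.exp_pos _).le).trans ?_
        rw [← Real.exp_add, ← Real.exp_add]
        apply le_of_eq
        congr 1
        rw [hV]
        ring)
    have hfun : (fun (N : ℕ) (z : ℂ) => (N : ℂ) ^ (2 * (m + 1)) * (-1) ^ (N * (m + 1)) *
        Complex.exp (-(N * (F 0 + s 0 z + π * Complex.I))) * stpb true a X N z) =
        (fun (N : ℕ) (p : ℂ) => (N : ℂ) ^ (2 * m) *
        (Real.sqrt N : ℂ) * (-1) ^ (N * m) *
        Complex.exp (-(N * (F 0 + s 0 p))) * (((Real.sqrt N : ℝ) : ℂ) ^ 3 * stpb true a X N p)) := by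
      funext N p
      have e := sqrt4 N
      have e3 : (N : ℂ) ^ (2 * (m + 1)) = (N : ℂ) ^ (2 * m) * (N : ℂ) ^ 2 := by ring
      have e4 : Complex.exp (-(N * (F 0 + s 0 p + π * Complex.I))) =
          Complex.exp (-(N * (F 0 + s 0 p))) * (-1) ^ N := by
        have e5 : -((N : ℂ) * (F 0 + s 0 p + π * Complex.I)) =
            -(N * (F 0 + s 0 p)) + -((N : ℂ) * (π * Complex.I)) := by ring
        rw [e5, Complex.exp_add, Complex.exp_neg (N * (π * Complex.I)), Complex.exp_nat_mul,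
          Complex.exp_pi_mul_I, ← inv_pow]
        norm_num
      have e5 : ((-1 : ℂ)) ^ (N * (m + 1)) * (-1) ^ N = (-1) ^ (N * m) := by
        rw [Nat.mul_add, mul_one, pow_add, mul_assoc, ← pow_add, ← two_mul, pow_mul]
        norm_num
      rw [e3, ← e, e4, ← e5]
      ring
    have hux : UX (fun (N : ℕ) (z : ℂ) => (N : ℂ) ^ (2 * (m + 1)) * (-1) ^ (N * (m + 1)) *
        Complex.exp (-(N * (F 0 + s 0 z + π * Complex.I))) * stpb true a X N z) B (Rc ρ₂ τ₂) := by
      rw [hfun]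
      exact hB
    refine ⟨B, ⟨hA1, hA2, ?_, hF'd, ?_, ?_, hmw, ?_⟩, ⟨hux, ?_, hB0⟩⟩
    · rw [hre]
      have := hpos 0 hm0
      linarith
    · intro ψ hψ
      rw [sev2 hK hψ]
    · intro ψ hψ
      have e : F 0 + s 0 ψ + π * Complex.I - (F 0 + s 0 0 + π * Complex.I) -
          ((1 : ℕ) : ℂ) * (s 0 ψ - s 0 0) = 0 := by
        push_cast
        ring
      rw [e, norm_zero]
      positivity
    · filter_upwards [hgl1] with N h1 x y hx1 hx2 hy
      rw [hre, Nat.cast_one, one_mul]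
      exact h1 x y hx1 hx2 hy
    · refine Pool.Agent.W303.AX.uxan _ B (Rc ρ₂ τ₂) (open_Rc _ _) ?_ hux
      filter_upwards with N
      have h1 : DifferentiableOn ℂ (fun z => Complex.exp (-((N : ℂ) *
          (F 0 + s 0 z + π * Complex.I)))) (Rc ρ₂ τ₂) :=
        (((hF'd.mono hRr).const_mul (N : ℂ)).neg).cexp
      exact (h1.const_mul ((N : ℂ) ^ (2 * (m + 1)) * (-1) ^ (N * (m + 1)))).mul
        (hA1 N).differentiableOn
  · -- the last step
    intro t m X F A ht hX hA a
    have hdec : ∀ p ∈ (Set.univ : Set Unit), ∀ x : ℝ, |x| ≤ ρ →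
        (F x).re ≤ (F 0).re - c / 4 * x ^ 2 := fun _ _ x hx =>
      hH t F ht hX.Fan hX.Fev hX.Fcl x hx
    obtain ⟨L, hL, hLF, -⟩ := bounds hK hX
    have hMW : ∀ ε : ℝ, 0 < ε → ∀ᶠ N : ℕ in atTop, ∀ w ∈ Rc (2 * ρ) (2 * τ),
        ∀ p ∈ (Set.univ : Set Unit), X N w ≠ 0 ∧
        |Real.log ‖X N w‖ - N * (F w).re| ≤ ε * N := by
      intro ε hε
      filter_upwards [hX.mw ε hε] with N h1 w hw _ _
      exact h1 w hw
    obtain ⟨κ₁, hκ₁, hloc⟩ := locb hUPB (a := a) (K := (Set.univ : Set Unit))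
      (Y := fun N w _ => X N w) (G := fun w _ => F w)
      (c₀ := c / 4) (L := L) (τ₁ := τ) hρ0 hρπ hτ0 hτ0 (fun N _ _ => hX.an N) hMW (by positivity)
      hL hdec
      (by
        intro p hp x y hx hy hy'
        have h1 := (Complex.re_le_norm _).trans (hLF x y hx (by rwa [abs_of_nonneg hy]))
        rw [Complex.sub_re, abs_of_nonneg hy] at h1
        linarith)
      ⟨κ / 2, by positivity, by
        filter_upwards [hX.gl1] with N h1 p hp x y hx1 hx2 hy
        refine (h1 x y hx1 hx2 hy).trans (Real.exp_le_exp.2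
          (mul_le_mul_of_nonneg_left ?_ (Nat.cast_nonneg N)))
        have ht' : (1 : ℝ) ≤ t := by exact_mod_cast ht
        have : 1 * (κ / 2) ≤ (t : ℝ) * (κ / 2) :=
          mul_le_mul_of_nonneg_right ht' (by positivity)
        linarith⟩
    have hG0 : deriv F 0 = 0 := even_deriv_zero hopen3 hm0 hX.Fan hX.Fev
    have hG2 := deriv2_le (c₀ := c / 4) hopen3 hm0 hX.Fan hG0 hρ0 (hdec () (Set.mem_univ _))
    obtain ⟨BF, hBF⟩ := (Kc_compact ρ₂ τ₂).exists_bound_of_continuousOn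
      (hX.Fan.continuousOn.mono hKc)
    have e0 : (fun w => F w + (0 : ℂ)) = F := by funext w; simp
    obtain ⟨B, hB, hB0⟩ := locxb f_LX Pool.Agent.W303.AX.uxmul (δ := min ρ₂ τ₂) (c := c / 2)
      (a := a) (S := (Set.univ : Set Unit)) (X := X) (F := F) (A := A) (k := fun _ _ _ => 1)
      (k' := fun k _ => if k = 0 then 1 else 0)
      (σ := fun _ _ => 0) (V := fun _ => F 0)
      (W := fun N _ => upp (1 / N) fun ψ => Eb true a N ψ * X N ψ * kr N ψ)
      (lt_min hρ20 hτ20) (by positivity) hA hX.an (hX.Fan.mono hRr) hball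
      ⟨max BF 0, fun w hw => ⟨(hBF w (hSK hw)).trans (le_max_left _ _), fun p hp => by
        rw [norm_zero]; exact le_max_right _ _⟩⟩
      (fun _ _ _ => continuousOn_const) (fun _ _ => differentiableOn_const _)
      (ux_one _) (fun _ _ _ => differentiableOn_const _)
      (fun x _ => by simp)
      (fun p _ => by
        rw [e0]
        exact ⟨by simp, hG0, by linarith⟩)
      (by
        intro δ' hδ'0 hδ'
        have hδρ : δ' ≤ ρ := by
          have := min_le_left ρ₂ τ₂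
          linarith
        obtain ⟨κ₂, hκ₂, hout⟩ := outer (a := a) (K := (Set.univ : Set Unit))
          (Y := fun N w _ => X N w) (G := fun w _ => F w)
          (c₀ := c / 4) hρ0 (by linarith) hτ0 hδ'0 hδρ (fun N _ _ => hX.an N) hMW
          (by positivity) hdec
        refine ⟨min κ₁ κ₂ / 2, by have := lt_min hκ₁ hκ₂; positivity, ?_⟩
        filter_upwards [hloc, hout, ev_exp (show 0 < min κ₁ κ₂ / 2 by
            have := lt_min hκ₁ hκ₂; positivity) 2] with N h1 h2 h4 p hp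
        have hN' : (0 : ℝ) ≤ N := Nat.cast_nonneg N
        have k1 := h1 p hp
        have k2 := h2 p hp
        simp only [mul_zero, Complex.exp_zero, mul_one]
        have eW : (upp (1 / N) fun ψ => Eb true a N ψ * X N ψ * kr N ψ) =
            upp (1 / N) fun w => Ea a N w * (UN N w * X N w) * kr N w := by
          unfold Pool.Agent.TH563.UV.Eb
          congr 1
          funext w
          simp only [if_true]
          ring
        rw [eW]
        obtain ⟨V, hV⟩ : ∃ V : ℝ, V = (F 0).re := ⟨_, rfl⟩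
        rw [← hV] at k1 k2 ⊢
        obtain ⟨I1, hI1⟩ : ∃ I1 : ℂ, I1 = ∫ x in (-ρ)..ρ, Ea a N x * X N x := ⟨_, rfl⟩
        obtain ⟨I2, hI2⟩ : ∃ I2 : ℂ, I2 = ∫ x in (-δ')..δ', Ea a N x * X N x := ⟨_, rfl⟩
        rw [← hI1] at k1 k2
        rw [← hI2] at k2 ⊢
        obtain ⟨T, hT⟩ : ∃ T : ℂ, T = upp (1 / N) fun w => Ea a N w * (UN N w *
          X N w) * kr N w := ⟨_, rfl⟩
        rw [← hT] at k1 ⊢
        have e3 : T - (-Complex.I) * I2 = (T - (-Complex.I) * I1) +
              (-Complex.I) * (I1 - I2) := by ring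
        rw [e3]
        refine (norm_add_le _ _).trans ?_
        rw [norm_mul (-Complex.I), norm_neg, Complex.norm_I, one_mul]
        have a1 : Real.exp (N * (V - κ₁)) ≤ Real.exp (N * (V - min κ₁ κ₂)) :=
          Real.exp_le_exp.2 (mul_le_mul_of_nonneg_left
            (by linarith [min_le_left κ₁ κ₂]) hN')
        have a2 : Real.exp (N * (V - κ₂)) ≤ Real.exp (N * (V - min κ₁ κ₂)) :=
          Real.exp_le_exp.2 (mul_le_mul_of_nonneg_left
            (by linarith [min_le_right κ₁ κ₂]) hN')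
        have a3 := mul_le_mul_of_nonneg_right h4 (Real.exp_pos (N * (V - min κ₁ κ₂))).le
        have e4 : Real.exp (N * (V - min κ₁ κ₂ / 2)) =
            Real.exp (min κ₁ κ₂ / 2 * N) * Real.exp (N * (V - min κ₁ κ₂)) := by
          rw [← Real.exp_add]
          congr 1
          ring
        rw [e4]
        linarith)
    refine ⟨fun k => B k (), hB0 () (Set.mem_univ _), ?_⟩
    have hfun : (fun (N : ℕ) (_ : Unit) => (N : ℂ) ^ (2 * m) * (Real.sqrt N : ℂ) *
        (-1) ^ (N * (m + 1)) * Complex.exp (-(N * (F 0 + π * Complex.I))) *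
        upp (1 / N) fun ψ => Eb true a N ψ * X N ψ * kr N ψ) =
        (fun (N : ℕ) (_ : Unit) => (N : ℂ) ^ (2 * m) * (Real.sqrt N : ℂ) * (-1) ^ (N * m) *
        Complex.exp (-(N * F 0)) * upp (1 / N) fun ψ => Eb true a N ψ * X N ψ * kr N ψ) := by
      funext N _
      have e4 : Complex.exp (-(N * (F 0 + π * Complex.I))) =
          Complex.exp (-(N * F 0)) * (-1) ^ N := by
        have e5 : -((N : ℂ) * (F 0 + π * Complex.I)) =
            -(N * F 0) + -((N : ℂ) * (π * Complex.I)) := by ring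
        rw [e5, Complex.exp_add, Complex.exp_neg (N * (π * Complex.I)), Complex.exp_nat_mul,
          Complex.exp_pi_mul_I, ← inv_pow]
        norm_num
      have e5 : ((-1 : ℂ)) ^ (N * (m + 1)) * (-1) ^ N = (-1) ^ (N * m) := by
        rw [Nat.mul_add, mul_one, pow_add, mul_assoc, ← pow_add, ← two_mul, pow_mul]
        norm_num
      rw [e4, ← e5]
      ring
    rw [hfun]
    exact hB

end Pool.Agent.TH929.J29

namespace Pool.Agent.TH929

theorem stepb : Pool.Agent.TH563.UV.S_STEPB := J29.stepb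

end Pool.Agent.TH929
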