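import Pool.Agent.TH83.DC.SDefs

set_option autoImplicit false

namespace Pool.Agent.TH929.DC2352

open Finset Real
open Pool.Agent.TH83.SQ (cls dil)
open Pool.Agent.TH83.DC
open scoped Pointwise Classical

section abs

variable {R : Type*} [AddCommGroup R] [DecidableEq R]

/-- a finitely supported probability vector -/
structure Prob (A : Finset R) (μ : R → ℝ) : Prop where
  nn : ∀ r, 0 ≤ μ r
  supp : ∀ r, r ∉ A → μ r = 0
  one : ∑ r ∈ A, μ r = 1

/-- convolution -/
noncomputable def conv (B : Finset R) (μ ν : R → ℝ) (z : R) : ℝ := ∑ s ∈ B, μ (z - s) * ν s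

theorem shift {A B : Finset R} {μ : R → ℝ} (hμ : Prob A μ) (f : ℝ → ℝ) (hf : f 0 = 0)
    {s : R} (hs : s ∈ B) : ∑ z ∈ A + B, f (μ (z - s)) = ∑ r ∈ A, f (μ r) := by
  have h1 : ∑ r ∈ A, f (μ r) = ∑ z ∈ A.image (fun r => r + s), f (μ (z - s)) := by
    rw [Finset.sum_image (fun a _ b _ h => add_right_cancel h)]
    simp
  rw [h1]
  symm
  refine Finset.sum_subset ?_ ?_
  · intro z hz
    rw [Finset.mem_image] at hz
    obtain ⟨r, hr, rfl⟩ := hz
    exact Finset.add_mem_add hr hs
  · intro z _ hz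
    have : z - s ∉ A := by
      intro h
      exact hz (Finset.mem_image.2 ⟨z - s, h, by abel⟩)
    rw [hμ.supp _ this, hf]

theorem Prob.le_one {A : Finset R} {μ : R → ℝ} (hμ : Prob A μ) (r : R) : μ r ≤ 1 := by
  by_cases h : r ∈ A
  · rw [← hμ.one]
    exact Finset.single_le_sum (fun i _ => hμ.nn i) h
  · rw [hμ.supp r h]; exact zero_le_one

/-- entropy of a finitely supported vector -/
noncomputable def H (A : Finset R) (μ : R → ℝ) : ℝ := ∑ r ∈ A, negMulLog (μ r)

theorem H_nonneg {A : Finset R} {μ : R → ℝ} (hμ : Prob A μ) : 0 ≤ H A μ :=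
  Finset.sum_nonneg fun r _ => negMulLog_nonneg (hμ.nn r) (hμ.le_one r)

theorem conv_prob {A B : Finset R} {μ ν : R → ℝ} (hμ : Prob A μ) (hν : Prob B ν) :
    Prob (A + B) (conv B μ ν) := by
  refine ⟨?_, ?_, ?_⟩
  · intro z
    exact Finset.sum_nonneg fun s _ => mul_nonneg (hμ.nn _) (hν.nn _)
  · intro z hz
    refine Finset.sum_eq_zero fun s hs => ?_
    have : z - s ∉ A := by
      intro h
      apply hz
      have := Finset.add_mem_add h hs
      simpa using this
    rw [hμ.supp _ this, zero_mul]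
  · unfold conv
    rw [Finset.sum_comm]
    have : ∀ s ∈ B, ∑ z ∈ A + B, μ (z - s) * ν s = ν s := by
      intro s hs
      rw [← Finset.sum_mul]
      have := shift hμ (fun t => t) rfl hs
      rw [this, hμ.one, one_mul]
    rw [Finset.sum_congr rfl this, hν.one]

theorem left {A B : Finset R} {μ ν : R → ℝ} (hμ : Prob A μ) (hν : Prob B ν) :
    H A μ ≤ H (A + B) (conv B μ ν) := by
  unfold H
  have h1 : ∀ z ∈ A + B, ∑ s ∈ B, ν s * negMulLog (μ (z - s)) ≤ negMulLog (conv B μ ν z) := by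
    intro z _
    have := concaveOn_negMulLog.le_map_sum (t := B) (w := ν) (p := fun s => μ (z - s))
      (fun s _ => hν.nn s) hν.one (fun s _ => hμ.nn _)
    simp only [smul_eq_mul] at this
    refine this.trans (le_of_eq ?_)
    unfold conv
    congr 1
    exact Finset.sum_congr rfl fun s _ => mul_comm _ _
  refine le_trans (le_of_eq ?_) (Finset.sum_le_sum h1)
  rw [Finset.sum_comm]
  have : ∀ s ∈ B, ∑ z ∈ A + B, ν s * negMulLog (μ (z - s)) =
      ν s * ∑ r ∈ A, negMulLog (μ r) := by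
    intro s hs
    rw [← Finset.mul_sum, shift hμ negMulLog (by simp) hs]
  rw [Finset.sum_congr rfl this, ← Finset.sum_mul, hν.one, one_mul]

theorem nml_add {m n : ℝ} (hm : 0 ≤ m) (hn : 0 ≤ n) :
    negMulLog m + negMulLog n - (m + n) ≤ negMulLog (m + n) := by
  rcases hm.eq_or_lt with rfl | hm
  · simp; linarith
  rcases hn.eq_or_lt with rfl | hn
  · simp; linarith
  have hl : ∀ a b : ℝ, 0 < a → 0 < b → Real.log (a + b) ≤ Real.log a + b / a := by
    intro a b ha hb
    have h1 : a + b = a * (1 + b / a) := by field_simp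
    rw [h1, Real.log_mul ha.ne' (by positivity)]
    have := Real.log_le_sub_one_of_pos (show 0 < 1 + b / a by positivity)
    linarith
  have h1 := mul_le_mul_of_nonneg_left (hl m n hm hn) hm.le
  have h2 := mul_le_mul_of_nonneg_left (hl n m hn hm) hn.le
  have e1 : m * (Real.log m + n / m) = m * Real.log m + n := by field_simp
  have e2 : n * (Real.log n + m / n) = n * Real.log n + m := by field_simp
  rw [e1] at h1
  rw [e2] at h2
  rw [add_comm n m] at h2
  unfold negMulLog
  nlinarith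

theorem nml_mul_le {c t : ℝ} (hc : 0 ≤ c) (hc1 : c ≤ 1) (ht : 0 ≤ t) :
    c * negMulLog t ≤ negMulLog (t * c) := by
  rw [negMulLog_mul]
  have := mul_nonneg ht (negMulLog_nonneg hc hc1)
  linarith

theorem nml_one_sub {ε : ℝ} (h1 : ε < 1) : negMulLog (1 - ε) ≤ ε := by
  have h := Real.one_sub_inv_le_log_of_pos (show 0 < 1 - ε by linarith)
  have h2 := mul_le_mul_of_nonneg_left h (show 0 ≤ 1 - ε by linarith)
  have e : (1 - ε) * (1 - (1 - ε)⁻¹) = -ε := by
    have : (1 - ε) ≠ 0 := by linarith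
    field_simp
    ring
  rw [e] at h2
  unfold negMulLog
  linarith

theorem nml_mono {x y : ℝ} (hx : 0 ≤ x) (hxy : x ≤ y) (hy : y ≤ 1 / 3) :
    negMulLog x ≤ negMulLog y := by
  rcases hx.eq_or_lt with rfl | hx
  · simp only [negMulLog_zero]
    exact negMulLog_nonneg hxy (by linarith)
  -- concavity-free proof: x log(1/x) ≤ y log (1/y)
  have hy0 : 0 < y := by linarith
  -- log (y/x) ≤ y/x - 1, so x log x ≥ x log y - (y - x)
  have h1 : Real.log y - Real.log x ≤ y / x - 1 := by
    rw [← Real.log_div hy0.ne' hx.ne']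
    exact Real.log_le_sub_one_of_pos (div_pos hy0 hx)
  have h2 := mul_le_mul_of_nonneg_left h1 hx.le
  have e2 : x * (y / x - 1) = y - x := by field_simp
  rw [e2] at h2
  -- log y ≤ log (1/3) ≤ -1
  have h3 : Real.log y ≤ -1 := by
    have : Real.log y ≤ Real.log (1 / 3) := Real.log_le_log hy0 hy
    have h4 : Real.log (1 / 3) ≤ -1 := by
      rw [one_div, Real.log_inv]
      have : (1 : ℝ) ≤ Real.log 3 := by
        rw [Real.le_log_iff_exp_le (by norm_num)]
        exact Real.exp_one_lt_d9.le.trans (by norm_num)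
      linarith
    linarith
  have h5 : (y - x) * Real.log y ≤ (y - x) * (-1) :=
    mul_le_mul_of_nonneg_left h3 (by linarith)
  unfold negMulLog
  nlinarith

theorem exists_max {A : Finset R} {μ : R → ℝ} (hμ : Prob A μ) :
    ∃ r ∈ A, ∀ r', μ r' ≤ μ r := by
  have hne : A.Nonempty := by
    rw [Finset.nonempty_iff_ne_empty]
    rintro rfl
    have := hμ.one
    simp at this
  obtain ⟨r, hr, h⟩ := Finset.exists_max_image A μ hne
  refine ⟨r, hr, fun r' => ?_⟩
  by_cases h' : r' ∈ A
  · exact h r' h'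
  · rw [hμ.supp r' h']
    exact hμ.nn r

theorem max_pos {A : Finset R} {μ : R → ℝ} (hμ : Prob A μ) {r : R}
    (h : ∀ r', μ r' ≤ μ r) : 0 < μ r := by
  by_contra hcon
  push Not at hcon
  have : ∑ r' ∈ A, μ r' ≤ 0 := Finset.sum_nonpos fun i _ => (h i).trans hcon
  rw [hμ.one] at this
  linarith

theorem eps_le {A : Finset R} {μ : R → ℝ} (hμ : Prob A μ) {r : R}
    (h : ∀ r', μ r' ≤ μ r) : 1 - μ r ≤ H A μ := by
  have hp := max_pos hμ h
  have h1 : ∀ r' ∈ A, μ r' * (1 - μ r) ≤ negMulLog (μ r') := by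
    intro r' _
    rcases (hμ.nn r').eq_or_lt with h0 | h0
    · rw [← h0]; simp
    · unfold negMulLog
      have : Real.log (μ r') ≤ μ r - 1 :=
        (Real.log_le_log h0 (h r')).trans (Real.log_le_sub_one_of_pos hp)
      nlinarith
  calc 1 - μ r = ∑ r' ∈ A, μ r' * (1 - μ r) := by rw [← Finset.sum_mul, hμ.one, one_mul]
    _ ≤ _ := Finset.sum_le_sum h1

theorem eps_log {A : Finset R} {μ : R → ℝ} (hμ : Prob A μ) {r : R} (hr : r ∈ A)
    {η : ℝ} (hη : 1 - μ r ≤ η) (hη0 : 0 < η) :
    (1 - μ r) * Real.log (1 / η) ≤ H A μ := by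
  have hle := hμ.le_one r
  have hsum : ∑ r' ∈ A.erase r, μ r' = 1 - μ r := by
    rw [← hμ.one, ← Finset.add_sum_erase A μ hr]; ring
  have h1 : ∀ r' ∈ A.erase r, μ r' * Real.log (1 / η) ≤ negMulLog (μ r') := by
    intro r' hr'
    rcases (hμ.nn r').eq_or_lt with h0 | h0
    · rw [← h0]; simp
    · have h2 : μ r' ≤ 1 - μ r := by
        rw [← hsum]
        exact Finset.single_le_sum (fun i _ => hμ.nn i) hr'
      have h3 : Real.log (μ r') ≤ Real.log η := Real.log_le_log h0 (h2.trans hη)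
      rw [one_div, Real.log_inv]
      unfold negMulLog
      nlinarith
  calc (1 - μ r) * Real.log (1 / η) = ∑ r' ∈ A.erase r, μ r' * Real.log (1 / η) := by
        rw [← Finset.sum_mul, hsum]
    _ ≤ ∑ r' ∈ A.erase r, negMulLog (μ r') := Finset.sum_le_sum h1
    _ ≤ H A μ := by
        unfold H
        rw [← Finset.add_sum_erase A _ hr]
        have := negMulLog_nonneg (hμ.nn r) hle
        linarith

theorem conv_comm {A B : Finset R} {μ ν : R → ℝ} (hμ : Prob A μ) (hν : Prob B ν) (z : R) :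
    conv B μ ν z = conv A ν μ z := by
  unfold conv
  have h1 : ∑ s ∈ B, μ (z - s) * ν s = ∑ s ∈ B.filter (fun s => z - s ∈ A), μ (z - s) * ν s := by
    rw [Finset.sum_filter]
    refine Finset.sum_congr rfl fun s _ => ?_
    split_ifs with h
    · rfl
    · rw [hμ.supp _ h, zero_mul]
  have h2 : ∑ s ∈ A, ν (z - s) * μ s = ∑ s ∈ A.filter (fun s => z - s ∈ B), ν (z - s) * μ s := by
    rw [Finset.sum_filter]
    refine Finset.sum_congr rfl fun s _ => ?_
    split_ifs with h
    · rfl
    · rw [hν.supp _ h, zero_mul]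
  rw [h1, h2]
  refine Finset.sum_bij' (fun s _ => z - s) (fun s _ => z - s) ?_ ?_ ?_ ?_ ?_
  · intro s hs
    rw [Finset.mem_filter] at hs ⊢
    exact ⟨hs.2, by simpa using hs.1⟩
  · intro s hs
    rw [Finset.mem_filter] at hs ⊢
    exact ⟨hs.2, by simpa using hs.1⟩
  · intro s _
    abel
  · intro s _
    abel
  · intro s _
    rw [mul_comm]
    congr 2
    abel

theorem small {A B : Finset R} {μ ν : R → ℝ} (hμ : Prob A μ) (hν : Prob B ν) {η : ℝ}
    (hη0 : 0 < η) (hη : η ≤ 1 / 6) (h1 : H A μ ≤ η) (h2 : H B ν ≤ η) :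
    (1 - η) * (H A μ + H B ν) - (2 / Real.log (1 / η)) * (H A μ + H B ν) ≤
      H (A + B) (conv B μ ν) := by
  obtain ⟨r0, hr0, hmax⟩ := exists_max hμ
  obtain ⟨s0, hs0, hmax'⟩ := exists_max hν
  set ε := 1 - μ r0 with hε
  set ε' := 1 - ν s0 with hε'
  have hε0 : 0 ≤ ε := by have := hμ.le_one r0; linarith
  have hε0' : 0 ≤ ε' := by have := hν.le_one s0; linarith
  have hεη : ε ≤ η := (eps_le hμ hmax).trans h1
  have hεη' : ε' ≤ η := (eps_le hν hmax').trans h2
  have hlog : 0 < Real.log (1 / η) := by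
    apply Real.log_pos
    rw [lt_div_iff₀ hη0]; linarith
  have hεl := eps_log hμ hr0 hεη hη0
  have hεl' := eps_log hν hs0 hεη' hη0
  have hμr : μ r0 = 1 - ε := by rw [hε]; ring
  have hνs : ν s0 = 1 - ε' := by rw [hε']; ring
  have hw := conv_prob hμ hν
  set w := conv B μ ν with hwdef
  have hz0 : r0 + s0 ∈ A + B := Finset.add_mem_add hr0 hs0
  -- value at z0
  have hwz0 : (1 - ε) * (1 - ε') ≤ w (r0 + s0) := by
    rw [hwdef]; unfold conv
    have : μ (r0 + s0 - s0) * ν s0 ≤ ∑ s ∈ B, μ (r0 + s0 - s) * ν s :=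
      Finset.single_le_sum (f := fun s => μ (r0 + s0 - s) * ν s)
        (fun s _ => mul_nonneg (hμ.nn _) (hν.nn _)) hs0
    rw [add_sub_cancel_right, hμr, hνs] at this
    exact this
  have hwsmall : ∀ z ∈ (A + B).erase (r0 + s0), w z ≤ 1 / 3 := by
    intro z hz
    have h3 : ∑ z ∈ (A + B).erase (r0 + s0), w z = 1 - w (r0 + s0) := by
      rw [← hw.one, ← Finset.add_sum_erase (A + B) w hz0]; ring
    have h4 : w z ≤ ∑ z ∈ (A + B).erase (r0 + s0), w z :=
      Finset.single_le_sum (fun i _ => hw.nn i) hz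
    have h5 : (1 - ε) * (1 - ε') = 1 - ε - ε' + ε * ε' := by ring
    have h6 := mul_nonneg hε0 hε0'
    linarith
  have hwlow : ∀ z ∈ (A + B).erase (r0 + s0),
      μ (z - s0) * (1 - ε') + ν (z - r0) * (1 - ε) ≤ w z := by
    intro z hz
    have hzne : z ≠ r0 + s0 := Finset.ne_of_mem_erase hz
    rw [hwdef]; unfold conv
    rw [← Finset.add_sum_erase B _ hs0, ← hνs]
    have : ν (z - r0) * (1 - ε) ≤ ∑ s ∈ B.erase s0, μ (z - s) * ν s := by
      by_cases hB : z - r0 ∈ B
      · have hm : z - r0 ∈ B.erase s0 := by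
          rw [Finset.mem_erase]
          refine ⟨?_, hB⟩
          intro h
          apply hzne
          rw [← h]; abel
        have h7 := Finset.single_le_sum (f := fun s => μ (z - s) * ν s)
          (fun s _ => mul_nonneg (hμ.nn _) (hν.nn _)) hm
        have h8 : z - (z - r0) = r0 := by abel
        simp only [h8, hμr] at h7
        linarith [mul_comm (1 - ε) (ν (z - r0))]
      · rw [hν.supp _ hB, zero_mul]
        exact Finset.sum_nonneg fun s _ => mul_nonneg (hμ.nn _) (hν.nn _)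
    linarith
  -- the terms
  have hterm : ∀ z ∈ (A + B).erase (r0 + s0),
      (1 - ε') * negMulLog (μ (z - s0)) + (1 - ε) * negMulLog (ν (z - r0)) -
        (μ (z - s0) * (1 - ε') + ν (z - r0) * (1 - ε)) ≤ negMulLog (w z) := by
    intro z hz
    have hc : 0 ≤ 1 - ε' := by linarith
    have hc' : 0 ≤ 1 - ε := by linarith
    have hm : 0 ≤ μ (z - s0) * (1 - ε') := mul_nonneg (hμ.nn _) hc
    have hn : 0 ≤ ν (z - r0) * (1 - ε) := mul_nonneg (hν.nn _) hc'
    have a1 := nml_mono (add_nonneg hm hn) (hwlow z hz) (hwsmall z hz)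
    have a2 := nml_add hm hn
    have a3 := nml_mul_le hc (by linarith) (hμ.nn (z - s0))
    have a4 := nml_mul_le hc' (by linarith) (hν.nn (z - r0))
    linarith
  have hsum := Finset.sum_le_sum hterm
  -- evaluate the sums
  have shiftE : ∀ f : ℝ → ℝ, f 0 = 0 → ∑ z ∈ (A + B).erase (r0 + s0), f (μ (z - s0)) =
      (∑ r ∈ A, f (μ r)) - f (μ r0) := by
    intro f hf
    have e1 := shift (B := B) hμ f hf hs0
    rw [← Finset.add_sum_erase (A + B) _ hz0] at e1
    rw [add_sub_cancel_right] at e1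
    linarith
  have shiftE' : ∀ f : ℝ → ℝ, f 0 = 0 → ∑ z ∈ (A + B).erase (r0 + s0), f (ν (z - r0)) =
      (∑ s ∈ B, f (ν s)) - f (ν s0) := by
    intro f hf
    have e1 := shift (B := A) hν f hf hr0
    rw [add_comm B A] at e1
    rw [← Finset.add_sum_erase (A + B) _ hz0] at e1
    rw [add_sub_cancel_left] at e1
    linarith
  rw [Finset.sum_sub_distrib, Finset.sum_add_distrib, Finset.sum_add_distrib,
    ← Finset.mul_sum, ← Finset.mul_sum, ← Finset.sum_mul, ← Finset.sum_mul,
    shiftE negMulLog (by simp), shiftE' negMulLog (by simp)] at hsum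
  have t1 := shiftE (fun t => t) rfl
  have t2 := shiftE' (fun t => t) rfl
  rw [t1, t2, hμ.one, hν.one] at hsum
  have hfin : ∑ z ∈ (A + B).erase (r0 + s0), negMulLog (w z) ≤ H (A + B) w := by
    unfold H
    rw [← Finset.add_sum_erase (A + B) (fun z => negMulLog (w z)) hz0]
    have := negMulLog_nonneg (hw.nn (r0 + s0)) (hw.le_one (r0 + s0))
    linarith
  have n1 : negMulLog (μ r0) ≤ ε := by rw [hμr]; exact nml_one_sub (by linarith)
  have n2 : negMulLog (ν s0) ≤ ε' := by rw [hνs]; exact nml_one_sub (by linarith)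
  change (1 - ε') * (H A μ - negMulLog (μ r0)) + (1 - ε) * (H B ν - negMulLog (ν s0)) -
    (ε * (1 - ε') + ε' * (1 - ε)) ≤ _ at hsum
  have hA := H_nonneg hμ
  have hB := H_nonneg hν
  have m1 : (1 - ε') * (H A μ - ε) ≤ (1 - ε') * (H A μ - negMulLog (μ r0)) :=
    mul_le_mul_of_nonneg_left (by linarith) (by linarith)
  have m2 : (1 - ε) * (H B ν - ε') ≤ (1 - ε) * (H B ν - negMulLog (ν s0)) :=
    mul_le_mul_of_nonneg_left (by linarith) (by linarith)
  have m3 : (1 - η) * H A μ ≤ (1 - ε') * H A μ :=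
    mul_le_mul_of_nonneg_right (by linarith) hA
  have m4 : (1 - η) * H B ν ≤ (1 - ε) * H B ν :=
    mul_le_mul_of_nonneg_right (by linarith) hB
  have m5 : 0 ≤ ε * ε' := mul_nonneg hε0 hε0'
  have k1 : 2 * ε ≤ (2 / Real.log (1 / η)) * H A μ := by
    rw [div_mul_eq_mul_div, le_div_iff₀ hlog]
    linarith
  have k2 : 2 * ε' ≤ (2 / Real.log (1 / η)) * H B ν := by
    rw [div_mul_eq_mul_div, le_div_iff₀ hlog]
    linarith
  nlinarith

theorem small' (δ : ℝ) (hδ : 0 < δ) : ∃ C : ℝ, 0 < C ∧ ∀ (R : Type) [AddCommGroup R]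
    [DecidableEq R] (A B : Finset R) (μ ν : R → ℝ), Prob A μ → Prob B ν →
    (1 - δ) * (H A μ + H B ν) - C * (H A μ * H B ν) ≤ H (A + B) (conv B μ ν) := by
  set η := min (min (Real.exp (-(4 / δ))) (δ / 2)) (1 / 6) with hη
  have hη0 : 0 < η := by
    rw [hη]
    refine lt_min (lt_min (Real.exp_pos _) (by linarith)) (by norm_num)
  have hη1 : η ≤ Real.exp (-(4 / δ)) := (min_le_left _ _).trans (min_le_left _ _)
  have hη2 : η ≤ δ / 2 := (min_le_left _ _).trans (min_le_right _ _)
  have hη3 : η ≤ 1 / 6 := min_le_right _ _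
  refine ⟨1 / η, by positivity, ?_⟩
  intro R _ _ A B μ ν hμ hν
  have hA := H_nonneg hμ
  have hB := H_nonneg hν
  have hl := left hμ hν
  have hr : H B ν ≤ H (A + B) (conv B μ ν) := by
    have := left hν hμ
    rw [add_comm B A] at this
    refine this.trans (le_of_eq ?_)
    unfold H
    exact Finset.sum_congr rfl fun z _ => by rw [conv_comm hμ hν z]
  by_cases h1 : H A μ ≤ η
  · by_cases h2 : H B ν ≤ η
    · have hs := small hμ hν hη0 hη3 h1 h2
      have hlog : 4 / δ ≤ Real.log (1 / η) := by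
        rw [one_div, Real.log_inv]
        have := Real.log_le_log hη0 hη1
        rw [Real.log_exp] at this
        linarith
      have hlog0 : 0 < Real.log (1 / η) := lt_of_lt_of_le (by positivity) hlog
      have h3 : 2 / Real.log (1 / η) ≤ δ / 2 := by
        rw [div_le_iff₀ hlog0]
        have := mul_le_mul_of_nonneg_left hlog (show 0 ≤ δ / 2 by linarith)
        have e : δ / 2 * (4 / δ) = 2 := by field_simp; norm_num
        linarith
      have hAB : 0 ≤ H A μ + H B ν := by linarith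
      have m1 := mul_le_mul_of_nonneg_right h3 hAB
      have m2 := mul_le_mul_of_nonneg_right hη2 hAB
      have m3 : 0 ≤ 1 / η * (H A μ * H B ν) := by positivity
      nlinarith
    · push Not at h2
      have m1 : H A μ ≤ 1 / η * (H A μ * H B ν) := by
        rw [one_div, inv_mul_eq_div, le_div_iff₀ hη0]
        exact mul_le_mul_of_nonneg_left h2.le hA
      have m2 : 0 ≤ δ * (H A μ + H B ν) := by positivity
      nlinarith
  · push Not at h1
    have m1 : H B ν ≤ 1 / η * (H A μ * H B ν) := by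
      rw [one_div, inv_mul_eq_div, le_div_iff₀ hη0, mul_comm]
      exact mul_le_mul_of_nonneg_right h1.le hB
    have m2 : 0 ≤ δ * (H A μ + H B ν) := by positivity
    nlinarith

end abs

section law

variable {α : Type*} {R : Type*} [DecidableEq R]

/-- the law of `g` on the finite set `s` -/
noncomputable def law (s : Finset α) (g : α → R) (r : R) : ℝ :=
  ((s.filter fun a => g a = r).card : ℝ) / s.card

theorem law_prob [AddCommGroup R] {s : Finset α} (hs : s.Nonempty) (g : α → R) :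
    Prob (s.image g) (law s g) := by
  have hc : (s.card : ℝ) ≠ 0 := by
    have := hs.card_pos
    positivity
  refine ⟨fun r => by unfold law; positivity, ?_, ?_⟩
  · intro r hr
    unfold law
    have : s.filter (fun a => g a = r) = ∅ := by
      rw [Finset.filter_eq_empty_iff]
      intro a ha h
      exact hr (Finset.mem_image.2 ⟨a, ha, h⟩)
    rw [this]; simp
  · unfold law
    rw [← Finset.sum_div, div_eq_one_iff_eq hc]
    rw [Finset.card_eq_sum_card_image g s]
    push_cast
    rfl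

theorem ent_law [AddCommGroup R] {s : Finset α} (hs : s.Nonempty) (g : α → R) :
    (∑ x ∈ s, Real.log ((s.card : ℝ) / (s.filter fun a => g a = g x).card)) / s.card =
      H (s.image g) (law s g) := by
  have hc : (s.card : ℝ) ≠ 0 := by
    have := hs.card_pos
    positivity
  rw [Finset.sum_comp (fun r => Real.log ((s.card : ℝ) / (s.filter fun a => g a = r).card)) g]
  unfold H law
  rw [Finset.sum_div]
  refine Finset.sum_congr rfl fun r _ => ?_
  rw [nsmul_eq_mul]
  unfold negMulLog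
  have e : Real.log ((s.card : ℝ) / (s.filter fun a => g a = r).card) =
      - Real.log (((s.filter fun a => g a = r).card : ℝ) / s.card) := by
    rw [← Real.log_inv, inv_div]
  rw [e]
  ring

theorem law_conv [AddCommGroup R] {β : Type*} {s : Finset α} {t : Finset β}
    (hs : s.Nonempty) (ht : t.Nonempty) (g : α → R) (h : β → R) (z : R) :
    law (s ×ˢ t) (fun p => g p.1 + h p.2) z = conv (t.image h) (law s g) (law t h) z := by
  have hc : (s.card : ℝ) ≠ 0 := by
    have := hs.card_pos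
    positivity
  have hc' : (t.card : ℝ) ≠ 0 := by
    have := ht.card_pos
    positivity
  unfold law conv
  rw [Finset.card_product]
  have e1 : (((s ×ˢ t).filter fun p => g p.1 + h p.2 = z).card : ℝ) =
      ∑ b ∈ t, ((s.filter fun a => g a = z - h b).card : ℝ) := by
    rw [Finset.card_filter, Finset.sum_product_right]
    push_cast
    refine Finset.sum_congr rfl fun b _ => ?_
    rw [Finset.card_filter]
    push_cast
    refine Finset.sum_congr rfl fun a _ => ?_
    simp only [eq_sub_iff_add_eq]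
  rw [e1, Finset.sum_comp (fun r => ((s.filter fun a => g a = z - r).card : ℝ)) h]
  rw [Finset.sum_div]
  refine Finset.sum_congr rfl fun r _ => ?_
  rw [nsmul_eq_mul]
  push_cast
  field_simp

end law

section main

theorem dvd_iff (Q x t : ℤ) : Q ∣ x - t ↔ ((x : ZMod Q.natAbs) = (t : ZMod Q.natAbs)) := by
  rw [eq_comm, ZMod.intCast_eq_intCast_iff_dvd_sub, Int.natAbs_dvd]

theorem ent_eq (Q : ℤ) {X : Finset ℤ} (hX : X.Nonempty) :
    ent Q X = H (X.image fun x : ℤ => (x : ZMod Q.natAbs))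
      (law X fun x : ℤ => (x : ZMod Q.natAbs)) := by
  rw [← ent_law hX]
  unfold ent
  congr 1
  refine Finset.sum_congr rfl fun x _ => ?_
  congr 3
  unfold cls
  congr 1
  exact Finset.filter_congr fun y _ => dvd_iff Q y x

theorem jent_eq (Q : ℤ) {X B : Finset ℤ} (hX : X.Nonempty) (hB : B.Nonempty) :
    jent Q X B = H ((X.image fun x : ℤ => (x : ZMod Q.natAbs)) +
        (B.image fun x : ℤ => (x : ZMod Q.natAbs)))
      (conv (B.image fun x : ℤ => (x : ZMod Q.natAbs))
        (law X fun x : ℤ => (x : ZMod Q.natAbs)) (law B fun x : ℤ => (x : ZMod Q.natAbs))) := by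
  have hXB : (X ×ˢ B).Nonempty := hX.product hB
  have h := ent_law hXB
    (fun p : ℤ × ℤ => ((p.1 : ZMod Q.natAbs) + (p.2 : ZMod Q.natAbs)))
  have himg : (X ×ˢ B).image
      (fun p : ℤ × ℤ => ((p.1 : ZMod Q.natAbs) + (p.2 : ZMod Q.natAbs))) =
      (X.image fun x : ℤ => (x : ZMod Q.natAbs)) +
        (B.image fun x : ℤ => (x : ZMod Q.natAbs)) := by
    ext z
    simp only [Finset.mem_image, Finset.mem_product, Finset.mem_add, Prod.exists]
    constructor
    · rintro ⟨x, b, ⟨hx, hb⟩, rfl⟩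
      exact ⟨_, ⟨x, hx, rfl⟩, _, ⟨b, hb, rfl⟩, rfl⟩
    · rintro ⟨_, ⟨x, hx, rfl⟩, _, ⟨b, hb, rfl⟩, rfl⟩
      exact ⟨x, b, ⟨hx, hb⟩, rfl⟩
  have hconv : H ((X.image fun x : ℤ => (x : ZMod Q.natAbs)) +
        (B.image fun x : ℤ => (x : ZMod Q.natAbs)))
      (conv (B.image fun x : ℤ => (x : ZMod Q.natAbs))
        (law X fun x : ℤ => (x : ZMod Q.natAbs)) (law B fun x : ℤ => (x : ZMod Q.natAbs))) =
      H ((X.image fun x : ℤ => (x : ZMod Q.natAbs)) +
        (B.image fun x : ℤ => (x : ZMod Q.natAbs)))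
      (law (X ×ˢ B) (fun p : ℤ × ℤ => ((p.1 : ZMod Q.natAbs) + (p.2 : ZMod Q.natAbs)))) := by
    unfold H
    refine Finset.sum_congr rfl fun z _ => ?_
    rw [law_conv hX hB (fun x : ℤ => (x : ZMod Q.natAbs)) (fun x : ℤ => (x : ZMod Q.natAbs))]
  rw [hconv, ← himg, ← h]
  unfold jent
  rw [Finset.card_product, Finset.sum_product]
  push_cast
  congr 1
  refine Finset.sum_congr rfl fun x _ => Finset.sum_congr rfl fun b _ => ?_
  congr 3
  unfold jn
  congr 1
  refine Finset.filter_congr fun w _ => ?_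
  rw [dvd_iff]
  push_cast
  rfl

theorem jent_left (Q : ℤ) {X B : Finset ℤ} (hX : X.Nonempty) (hB : B.Nonempty) :
    ent Q X ≤ jent Q X B := by
  rw [ent_eq Q hX, jent_eq Q hX hB]
  exact left (law_prob hX _) (law_prob hB _)

theorem jent_right (Q : ℤ) {X B : Finset ℤ} (hX : X.Nonempty) (hB : B.Nonempty) :
    ent Q B ≤ jent Q X B := by
  rw [ent_eq Q hB, jent_eq Q hX hB]
  have := left (law_prob hB (fun x : ℤ => (x : ZMod Q.natAbs)))
    (law_prob hX (fun x : ℤ => (x : ZMod Q.natAbs)))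
  rw [add_comm] at this
  refine this.trans (le_of_eq ?_)
  unfold H
  refine Finset.sum_congr rfl fun z _ => ?_
  rw [conv_comm (law_prob hX _) (law_prob hB _) z]

theorem jent_small (δ : ℝ) (hδ : 0 < δ) : ∃ C : ℝ, 0 < C ∧ ∀ (Q : ℤ) (X B : Finset ℤ),
    X.Nonempty → B.Nonempty →
    (1 - δ) * (ent Q X + ent Q B) - C * (ent Q X * ent Q B) ≤ jent Q X B := by
  obtain ⟨C, hC, h⟩ := small' δ hδ
  refine ⟨C, hC, fun Q X B hX hB => ?_⟩
  rw [ent_eq Q hX, ent_eq Q hB, jent_eq Q hX hB]
  exact h _ _ _ _ _ (law_prob hX _) (law_prob hB _)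

end main

end Pool.Agent.TH929.DC2352
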