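import Mathlib

set_option autoImplicit false

namespace Pool.Agent.TH929.DC2354

open Finset

/-- telescoping over a set, decreasing version -/
theorem telA (G : ℕ → ℝ) (hG : Antitone G) (h0 : ∀ i, 0 ≤ G i) (g : ℝ) (hg : 0 ≤ g)
    (T : Finset ℕ) (hT : ∀ i ∈ T, G i ≤ g) : ∑ i ∈ T, (G i - G (i + 1)) ≤ g := by
  classical
  rcases T.eq_empty_or_nonempty with rfl | hne
  · simpa using hg
  · have hsub : T ⊆ Finset.Ico (T.min' hne) (T.max' hne + 1) := by
      intro i hi
      rw [Finset.mem_Ico]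
      exact ⟨Finset.min'_le _ _ hi, Nat.lt_succ_of_le (Finset.le_max' _ _ hi)⟩
    calc ∑ i ∈ T, (G i - G (i + 1))
        ≤ ∑ i ∈ Finset.Ico (T.min' hne) (T.max' hne + 1), (G i - G (i + 1)) :=
          Finset.sum_le_sum_of_subset_of_nonneg hsub
            (fun i _ _ => sub_nonneg.2 (hG (Nat.le_succ i)))
      _ = G (T.min' hne) - G (T.min' hne + (T.max' hne + 1 - T.min' hne)) := by
          rw [Finset.sum_Ico_eq_sum_range]
          have := Finset.sum_range_sub' (fun j => G (T.min' hne + j))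
            (T.max' hne + 1 - T.min' hne)
          simpa [add_assoc] using this
      _ ≤ g := by
          have h1 := hT _ (T.min'_mem hne)
          have h2 := h0 (T.min' hne + (T.max' hne + 1 - T.min' hne))
          linarith

/-- telescoping over a set, increasing version -/
theorem telB (G : ℕ → ℝ) (hG : Monotone G) (h0 : 0 ≤ G 0) (g : ℝ) (hg : 0 ≤ g)
    (T : Finset ℕ) (hT : ∀ i ∈ T, G (i + 1) ≤ g) : ∑ i ∈ T, (G (i + 1) - G i) ≤ g := by
  classical
  rcases T.eq_empty_or_nonempty with rfl | hne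
  · simpa using hg
  · have hsub : T ⊆ Finset.range (T.max' hne + 1) := by
      intro i hi
      rw [Finset.mem_range]
      exact Nat.lt_succ_of_le (Finset.le_max' _ _ hi)
    calc ∑ i ∈ T, (G (i + 1) - G i)
        ≤ ∑ i ∈ Finset.range (T.max' hne + 1), (G (i + 1) - G i) :=
          Finset.sum_le_sum_of_subset_of_nonneg hsub
            (fun i _ _ => sub_nonneg.2 (hG (Nat.le_succ i)))
      _ = G (T.max' hne + 1) - G 0 := Finset.sum_range_sub G _
      _ ≤ g := by
          have h1 := hT _ (T.max'_mem hne)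
          linarith

theorem antiX (HX : ℕ → ℝ) (hX : Monotone HX) (c : ℕ) : Antitone fun i => HX (c - i) :=
  fun _ _ h => hX (Nat.sub_le_sub_left h c)

theorem nonnegX (HX : ℕ → ℝ) (hX : Monotone HX) (hX0 : HX 0 = 0) (i : ℕ) : 0 ≤ HX i := by
  rw [← hX0]; exact hX (Nat.zero_le i)

/-- the inner sum over `i` -/
theorem innerX (HX : ℕ → ℝ) (hX : Monotone HX) (hX0 : HX 0 = 0) (g : ℝ) (hg : 0 ≤ g)
    (l : ℕ) (T : Finset ℕ) (hT : ∀ i ∈ T, HX (l + 1 - i) ≤ g) :
    ∑ i ∈ T, (HX (l + 1 - i) - HX (l - i)) ≤ g := by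
  have h := telA (fun i => HX (l + 1 - i)) (antiX HX hX (l + 1))
    (fun i => nonnegX HX hX hX0 _) g hg T hT
  refine le_trans (le_of_eq ?_) h
  refine Finset.sum_congr rfl fun i _ => ?_
  have : l + 1 - (i + 1) = l - i := by omega
  simp only [this]

theorem first_part (HX HB : ℕ → ℝ) (hX : Monotone HX) (hB : Monotone HB) (hX0 : HX 0 = 0)
    (hB0 : HB 0 = 0) (g g' : ℝ) (hg : 0 ≤ g) (hg' : 0 ≤ g') (S : Finset ℕ) (N : ℕ → ℕ)
    (h1 : ∀ i ∈ S, ∀ l, l < N i → HX (l + 1 - i) ≤ g ∧ HB (l + 1) ≤ g') :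
    ∑ i ∈ S, ∑ l ∈ Finset.range (N i), (HX (l + 1 - i) - HX (l - i)) * (HB (l + 1) - HB l)
      ≤ g * g' := by
  classical
  have hsw : ∑ i ∈ S, ∑ l ∈ Finset.range (N i),
      (HX (l + 1 - i) - HX (l - i)) * (HB (l + 1) - HB l) =
      ∑ l ∈ Finset.range (S.sup N), ∑ i ∈ S.filter (fun i => l < N i),
        (HX (l + 1 - i) - HX (l - i)) * (HB (l + 1) - HB l) := by
    refine Finset.sum_comm' ?_
    intro i l
    simp only [Finset.mem_range, Finset.mem_filter]
    constructor
    · rintro ⟨hi, hl⟩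
      exact ⟨⟨hi, hl⟩, lt_of_lt_of_le hl (Finset.le_sup hi)⟩
    · rintro ⟨⟨hi, hl⟩, _⟩
      exact ⟨hi, hl⟩
  rw [hsw]
  have hstep : ∀ l ∈ Finset.range (S.sup N), ∑ i ∈ S.filter (fun i => l < N i),
        (HX (l + 1 - i) - HX (l - i)) * (HB (l + 1) - HB l) ≤ g * (HB (l + 1) - HB l) := by
    intro l _
    rw [← Finset.sum_mul]
    refine mul_le_mul_of_nonneg_right ?_ (sub_nonneg.2 (hB (Nat.le_succ l)))
    refine innerX HX hX hX0 g hg l _ ?_
    intro i hi
    rw [Finset.mem_filter] at hi
    exact (h1 i hi.1 l hi.2).1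
  refine (Finset.sum_le_sum hstep).trans ?_
  rw [← Finset.mul_sum]
  refine mul_le_mul_of_nonneg_left ?_ hg
  refine telB HB hB hB0.ge g' hg' _ ?_
  intro l hl
  rw [Finset.mem_range, Finset.lt_sup_iff] at hl
  obtain ⟨i, hi, hl⟩ := hl
  exact (h1 i hi l hl).2

theorem core (HX HB : ℕ → ℝ) (hX : Monotone HX) (hB : Monotone HB) (hX0 : HX 0 = 0)
    (hB0 : HB 0 = 0) (g C : ℝ) (hg : 0 ≤ g) (hC : 0 ≤ C) (L : ℕ → ℕ) (S : Finset ℕ)
    (a b : ℕ) (ha : 1 ≤ a) (hb : 1 ≤ b)
    (h1 : ∀ i ∈ S, ∀ l, l < L i - 1 → HX (l + 1 - i) ≤ g ∧ HB (l + 1) ≤ g)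
    (h2 : ∀ i ∈ S, (L i = a + i ∧ HB (a + i) ≤ g) ∨ (L i = b ∧ HX (b - i) ≤ g)) :
    ∑ i ∈ S, (C * ∑ l ∈ Finset.range (L i - 1),
        (HX (l + 1 - i) - HX (l - i)) * (HB (l + 1) - HB l) +
        min (HX (L i - i) - HX (L i - 1 - i)) (HB (L i) - HB (L i - 1))) ≤
        C * g ^ 2 + 2 * g := by
  classical
  rw [Finset.sum_add_distrib, ← Finset.mul_sum]
  have hA := first_part HX HB hX hB hX0 hB0 g g hg hg S (fun i => L i - 1) h1
  have hA' := mul_le_mul_of_nonneg_left hA hC
  have hB2 : ∑ i ∈ S, min (HX (L i - i) - HX (L i - 1 - i)) (HB (L i) - HB (L i - 1)) ≤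
      2 * g := by
    rw [← Finset.sum_filter_add_sum_filter_not S (fun i => L i = a + i ∧ HB (a + i) ≤ g)]
    have e1 : ∑ i ∈ S.filter (fun i => L i = a + i ∧ HB (a + i) ≤ g),
        min (HX (L i - i) - HX (L i - 1 - i)) (HB (L i) - HB (L i - 1)) ≤ g := by
      have h := telB (fun i => HB (a - 1 + i)) (fun x y h => hB (by omega))
        (nonnegX HB hB hB0 _) g hg (S.filter (fun i => L i = a + i ∧ HB (a + i) ≤ g)) ?_
      · refine le_trans (Finset.sum_le_sum ?_) h
        intro i hi
        rw [Finset.mem_filter] at hi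
        refine (min_le_right _ _).trans (le_of_eq ?_)
        have e1 : a - 1 + (i + 1) = L i := by omega
        have e2 : a - 1 + i = L i - 1 := by omega
        simp only [e1, e2]
      · intro i hi
        rw [Finset.mem_filter] at hi
        have e1 : a - 1 + (i + 1) = a + i := by omega
        simp only [e1]
        exact hi.2.2
    have e2 : ∑ i ∈ S.filter (fun i => ¬ (L i = a + i ∧ HB (a + i) ≤ g)),
        min (HX (L i - i) - HX (L i - 1 - i)) (HB (L i) - HB (L i - 1)) ≤ g := by
      have h := innerX HX hX hX0 g hg (b - 1)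
        (S.filter (fun i => ¬ (L i = a + i ∧ HB (a + i) ≤ g))) ?_
      · refine le_trans (Finset.sum_le_sum ?_) h
        intro i hi
        rw [Finset.mem_filter] at hi
        refine (min_le_left _ _).trans (le_of_eq ?_)
        have hL : L i = b := by
          rcases h2 i hi.1 with h | h
          · exact absurd h hi.2
          · exact h.1
        have e1 : b - 1 + 1 - i = L i - i := by omega
        have e2 : b - 1 - i = L i - 1 - i := by omega
        simp only [e1, e2]
      · intro i hi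
        rw [Finset.mem_filter] at hi
        rcases h2 i hi.1 with h | h
        · exact absurd h hi.2
        · have e1 : b - 1 + 1 - i = b - i := by omega
          rw [e1]
          exact h.2
    linarith
  have : C * (g * g) = C * g ^ 2 := by ring
  linarith

theorem levels (HX HB : ℕ → ℝ) (hX : Monotone HX) (hB : Monotone HB) (hX0 : HX 0 = 0)
    (hB0 : HB 0 = 0) (g C : ℝ) (hg : 0 ≤ g) (hC : 0 ≤ C) (e : ℕ)
    (hex : (∃ l, g < HX l) ∨ ∃ l, g < HB l) :
    ∃ (L : ℕ → ℕ) (S : Finset ℕ), S ⊆ Finset.range (e + 1) ∧ e ≤ S.card ∧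
      (∀ i ∈ S, 1 ≤ L i ∧ g ≤ HX (L i - i) + HB (L i)) ∧
      ∑ i ∈ S, (C * ∑ l ∈ Finset.range (L i - 1),
        (HX (l + 1 - i) - HX (l - i)) * (HB (l + 1) - HB l) +
        min (HX (L i - i) - HX (L i - 1 - i)) (HB (L i) - HB (L i - 1))) ≤
        C * g ^ 2 + 2 * g := by
  classical
  have nX := nonnegX HX hX hX0
  have nB := nonnegX HB hB hB0
  by_cases hx : ∃ l, g < HX l
  · obtain ⟨a, ha1, ha2⟩ : ∃ a, g < HX a ∧ ∀ l, l < a → HX l ≤ g :=
      ⟨Nat.find hx, Nat.find_spec hx, fun l hl => not_lt.1 (Nat.find_min hx hl)⟩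
    have ha0 : 1 ≤ a := by
      rcases Nat.eq_zero_or_pos a with h | h
      · rw [h, hX0] at ha1; linarith
      · exact h
    by_cases hb : ∃ l, g < HB l
    · obtain ⟨b, hb1, hb2⟩ : ∃ b, g < HB b ∧ ∀ l, l < b → HB l ≤ g :=
        ⟨Nat.find hb, Nat.find_spec hb, fun l hl => not_lt.1 (Nat.find_min hb hl)⟩
      have hb0 : 1 ≤ b := by
        rcases Nat.eq_zero_or_pos b with h | h
        · rw [h, hB0] at hb1; linarith
        · exact h
      refine ⟨fun i => min (a + i) b, (Finset.range (e + 1)).erase (b - a) |>.filter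
        (fun i => a + i ≠ b), ?_, ?_, ?_, ?_⟩
      · intro i hi
        exact Finset.mem_of_mem_erase (Finset.mem_filter.1 hi).1
      · have : ((Finset.range (e + 1)).erase (b - a)).filter (fun i => a + i ≠ b) =
            (Finset.range (e + 1)).erase (b - a) := by
          refine Finset.filter_true_of_mem ?_
          intro i hi
          rw [Finset.mem_erase] at hi
          omega
        rw [this]
        have := Finset.pred_card_le_card_erase (s := Finset.range (e + 1)) (a := b - a)
        rw [Finset.card_range] at this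
        omega
      · intro i hi
        refine ⟨?_, ?_⟩
        · simp only [le_min_iff]; omega
        · rcases le_total (a + i) b with h | h
          · have h1 : min (a + i) b = a + i := min_eq_left h
            simp only [h1]
            have h2 : a + i - i = a := by omega
            rw [h2]
            have := nB (a + i)
            linarith
          · have h1 : min (a + i) b = b := min_eq_right h
            simp only [h1]
            have := nX (b - i)
            linarith
      · refine core HX HB hX hB hX0 hB0 g C hg hC _ _ a b ha0 hb0 ?_ ?_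
        · intro i hi l hl
          have h1 : min (a + i) b ≤ a + i := min_le_left _ _
          have h2 : min (a + i) b ≤ b := min_le_right _ _
          exact ⟨ha2 _ (by omega), hb2 _ (by omega)⟩
        · intro i hi
          rw [Finset.mem_filter] at hi
          rcases lt_or_gt_of_ne hi.2 with h | h
          · left
            exact ⟨min_eq_left h.le, hb2 _ h⟩
          · right
            exact ⟨min_eq_right h.le, ha2 _ (by omega)⟩
    · push Not at hb
      refine ⟨fun i => a + i, Finset.range (e + 1), subset_rfl, by simp, ?_, ?_⟩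
      · intro i _
        refine ⟨le_trans ha0 (Nat.le_add_right a i), ?_⟩
        have h2 : a + i - i = a := by omega
        simp only [h2]
        have := nB (a + i)
        linarith
      · refine core HX HB hX hB hX0 hB0 g C hg hC _ _ a 1 ha0 le_rfl ?_ ?_
        · intro i _ l hl
          exact ⟨ha2 _ (by omega), hb _⟩
        · intro i _
          left
          exact ⟨rfl, hb _⟩
  · have hb : ∃ l, g < HB l := by
      rcases hex with h | h
      · exact absurd h hx
      · exact h
    push Not at hx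
    obtain ⟨b, hb1, hb2⟩ : ∃ b, g < HB b ∧ ∀ l, l < b → HB l ≤ g :=
      ⟨Nat.find hb, Nat.find_spec hb, fun l hl => not_lt.1 (Nat.find_min hb hl)⟩
    have hb0 : 1 ≤ b := by
      rcases Nat.eq_zero_or_pos b with h | h
      · rw [h, hB0] at hb1; linarith
      · exact h
    refine ⟨fun _ => b, Finset.range (e + 1), subset_rfl, by simp, ?_, ?_⟩
    · intro i _
      refine ⟨hb0, ?_⟩
      have := nX (b - i)
      simp only
      linarith
    · refine core HX HB hX hB hX0 hB0 g C hg hC _ _ 1 b le_rfl hb0 ?_ ?_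
      · intro i _ l hl
        exact ⟨hx _, hb2 _ (by omega)⟩
      · intro i _
        right
        exact ⟨rfl, hx _⟩

theorem levels_small (HX HB : ℕ → ℝ) (hX : Monotone HX) (hB : Monotone HB) (hX0 : HX 0 = 0)
    (hB0 : HB 0 = 0) (a b : ℝ) (ha : ∀ l, HX l ≤ a) (hb : ∀ l, HB l ≤ b) (e M : ℕ) :
    ∑ i ∈ Finset.range (e + 1), ∑ l ∈ Finset.range M,
        (HX (l + 1 - i) - HX (l - i)) * (HB (l + 1) - HB l) ≤ a * b :=
  first_part HX HB hX hB hX0 hB0 a b (hX0 ▸ ha 0) (hB0 ▸ hb 0) _ (fun _ => M)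
    (fun _ _ _ _ => ⟨ha _, hb _⟩)

end Pool.Agent.TH929.DC2354
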