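import Pool.Agent.TH563.UV.Stm
import Pool.Agent.W688.AX.StepXa

/-!
# Job 29 (UV-STEPB): preparations

Identities and bounds for `UN`, and the localisation of the integral at the real segment.
-/

set_option autoImplicit false
set_option maxHeartbeats 1000000

namespace Pool.Agent.TH929.J29

open Filter Finset Topology Metric
open Pool.Agent.W711.HT hiding XX
open Pool.Agent.W85.HT
open Pool.Agent.TH563.UV (UN)
open scoped Real

/-! ### The eigenvalue of a circle -/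

lemma UN_diff (N : ℕ) : Differentiable ℂ (UN N) := by
  unfold Pool.Agent.TH563.UV.UN
  apply Differentiable.fun_sum
  intro j _
  fun_prop

lemma tele (x : ℂ) (M : ℂ) (n : ℕ) :
    (∑ j ∈ range n, Complex.cos ((M - 1 - 2 * j) * x)) * (2 * Complex.sin x) =
      Complex.sin (M * x) - Complex.sin ((M - 2 * n) * x) := by
  induction n with
  | zero => simp
  | succ n ih =>
    rw [Finset.sum_range_succ, add_mul, ih]
    have e1 : (M - 2 * n) * x = (M - 1 - 2 * n) * x + x := by ring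
    have e2 : (M - 2 * ((n + 1 : ℕ) : ℂ)) * x = (M - 1 - 2 * n) * x - x := by push_cast; ring
    rw [e1, e2, Complex.sin_add, Complex.sin_sub]
    ring

lemma UN_sin (N : ℕ) (w : ℂ) : UN N w * Complex.sin w = -Complex.sin (N * (w + π)) := by
  have h := tele (w + π) N N
  have e : ((N : ℂ) - 2 * N) * (w + π) = -(N * (w + π)) := by ring
  rw [e, Complex.sin_neg, Complex.sin_add_pi] at h
  unfold Pool.Agent.TH563.UV.UN
  linear_combination (-1 / 2) * h

lemma UN_kr {N : ℕ} (hN : 0 < N) {w : ℂ} (hw : 0 < w.im) :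
    UN N w * kr N w = -Complex.I + 2 * Complex.I * (uu N w / (1 + uu N w)) := by
  have h1 := one_add_ne (uu_lt hN hw)
  have h0 : uu N w ≠ 0 := Complex.exp_ne_zero _
  have h2 : Complex.sin (N * (w + π)) = ((uu N w)⁻¹ - uu N w) * Complex.I / 2 := by
    rw [Complex.sin]
    unfold uu
    rw [← Complex.exp_neg]
    congr 4 <;> ring
  rw [kr_eq]
  unfold pp
  have e : UN N w * (uu N w * (2 * Complex.sin w / (1 + uu N w) ^ 2)) =
      2 * (UN N w * Complex.sin w) * uu N w / (1 + uu N w) ^ 2 := by ring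
  rw [e, UN_sin, h2]
  field_simp
  ring

lemma norm_cos_le (w : ℂ) : ‖Complex.cos w‖ ≤ Real.exp |w.im| := by
  rw [Complex.cos]
  have n1 : ‖Complex.exp (-w * Complex.I)‖ = Real.exp w.im := by
    rw [Complex.norm_exp]
    congr 1
    simp
  have n2 : ‖Complex.exp (w * Complex.I)‖ = Real.exp (-w.im) := by
    rw [Complex.norm_exp]
    congr 1
    simp
  rw [norm_div, Complex.norm_ofNat]
  have h1 := norm_add_le (Complex.exp (w * Complex.I)) (Complex.exp (-w * Complex.I))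
  rw [n1, n2] at h1
  have h2 : Real.exp w.im ≤ Real.exp |w.im| := Real.exp_le_exp.2 (le_abs_self _)
  have h3 : Real.exp (-w.im) ≤ Real.exp |w.im| := Real.exp_le_exp.2 (neg_le_abs _)
  rw [div_le_iff₀ (by norm_num)]
  linarith

lemma UN_bd {N : ℕ} (hN : 0 < N) {x y : ℝ} (hy : |y| ≤ 1 / N) :
    ‖UN N (x + y * Complex.I)‖ ≤ 3 * N := by
  have hN' : (0 : ℝ) < N := by exact_mod_cast hN
  unfold Pool.Agent.TH563.UV.UN
  refine (norm_sum_le _ _).trans ?_
  have h : ∀ j ∈ range N, ‖Complex.cos (((N : ℂ) - 1 - 2 * j) * (x + y * Complex.I + π))‖ ≤ 3 := by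
    intro j hj
    refine (norm_cos_le _).trans ?_
    have hj' : j + 1 ≤ N := mem_range.1 hj
    have hj2 : (j : ℝ) + 1 ≤ N := by exact_mod_cast hj'
    have hj0 : (0 : ℝ) ≤ j := Nat.cast_nonneg j
    have e : (((N : ℂ) - 1 - 2 * j) * (x + y * Complex.I + π)).im = ((N : ℝ) - 1 - 2 * j) * y := by
      have e1 : ((N : ℂ) - 1 - 2 * j) = (((N : ℝ) - 1 - 2 * j : ℝ) : ℂ) := by push_cast; ring
      rw [e1, Complex.im_ofReal_mul]
      simp
    rw [e, abs_mul]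
    have h1 : |(N : ℝ) - 1 - 2 * j| ≤ N := by
      rw [abs_le]
      constructor <;> linarith
    have h2 : |(N : ℝ) - 1 - 2 * j| * |y| ≤ 1 := by
      calc _ ≤ (N : ℝ) * (1 / N) := mul_le_mul h1 hy (abs_nonneg _) hN'.le
        _ = 1 := by field_simp
    calc Real.exp (|(N : ℝ) - 1 - 2 * j| * |y|) ≤ Real.exp 1 := Real.exp_le_exp.2 h2
      _ ≤ 3 := by have := Real.exp_one_lt_d9; linarith
  refine (Finset.sum_le_card_nsmul _ _ 3 h).trans ?_
  rw [card_range, nsmul_eq_mul]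
  linarith

lemma norm_Ea (a : ℤ) (N : ℕ) (x y : ℝ) :
    ‖Ea a N (x + y * Complex.I)‖ ≤ Real.exp (N * (|(a : ℝ)| / (2 * π) * (|x| * |y|))) := by
  unfold Ea
  rw [Complex.norm_exp]
  apply Real.exp_le_exp.2
  have e : (Complex.I * a * N * (x + y * Complex.I) ^ 2 / (4 * π)).re =
      N * (-(a : ℝ) / (2 * π) * (x * y)) := by
    have e1 : Complex.I * a * N * ((x : ℂ) + y * Complex.I) ^ 2 / (4 * π) =
        ((N * (-(a : ℝ) / (2 * π) * (x * y)) : ℝ) : ℂ) +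
          ((N * ((a : ℝ) * (x ^ 2 - y ^ 2) / (4 * π)) : ℝ) : ℂ) * Complex.I := by
      push_cast
      linear_combination ((2 * a * N * x * y + a * N * y ^ 2 * Complex.I) / (4 * π) : ℂ) *
        Complex.I_sq
    rw [e1, Complex.add_re, Complex.ofReal_re, Complex.re_ofReal_mul, Complex.I_re, mul_zero,
      add_zero]
  rw [e]
  apply mul_le_mul_of_nonneg_left _ (Nat.cast_nonneg N)
  refine (le_abs_self _).trans (le_of_eq ?_)
  rw [abs_mul, abs_mul, abs_div, abs_neg, abs_of_pos Real.two_pi_pos]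

lemma norm_Ea_real (a : ℤ) (N : ℕ) (x : ℝ) : ‖Ea a N x‖ ≤ 1 := by
  have h := norm_Ea a N x 0
  simpa using h

lemma Ea_diff (a : ℤ) (N : ℕ) : Differentiable ℂ (Ea a N) := by
  unfold Ea
  fun_prop

/-- `‖u / (1 + u)‖ ≤ 2 ‖u‖` for `‖u‖ ≤ 1 / 2` -/
lemma frac_bd {u : ℂ} (hu : ‖u‖ ≤ 1 / 2) : ‖u / (1 + u)‖ ≤ 2 * ‖u‖ := by
  have h1 : 1 / 2 ≤ ‖1 + u‖ := by
    have := norm_sub_norm_le (1 : ℂ) (-u)
    rw [norm_one, norm_neg, sub_neg_eq_add] at this
    linarith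
  rw [norm_div, div_le_iff₀ (by linarith)]
  have := norm_nonneg u
  nlinarith

lemma uu_half {N : ℕ} (hN : 0 < N) {w : ℂ} (hw : 1 / (N : ℝ) ≤ w.im) : ‖uu N w‖ ≤ 1 / 2 := by
  have hN' : (0 : ℝ) < N := by exact_mod_cast hN
  rw [norm_uu]
  have : 1 ≤ N * w.im := by
    rw [div_le_iff₀ hN'] at hw
    linarith
  refine (Real.exp_le_exp.2 (show -(N * w.im) ≤ -1 by linarith)).trans ?_
  rw [Real.exp_neg, ← one_div]
  apply one_div_le_one_div_of_le (by norm_num)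
  have := Real.add_one_le_exp (1 : ℝ)
  linarith

lemma nat_exp_ev {κ : ℝ} (hκ : 0 < κ) (C C' : ℝ) :
    ∀ᶠ N : ℕ in atTop, C * N + C' ≤ Real.exp (κ * N) := by
  have h1 : ∀ᶠ x : ℝ in atTop, ‖x ^ 2‖ ≤ 1 * ‖Real.exp (κ * x)‖ :=
    (isLittleO_pow_exp_pos_mul_atTop 2 hκ).bound one_pos
  have h2 := tendsto_natCast_atTop_atTop.eventually h1
  have h3 : ∀ᶠ N : ℕ in atTop, |C| + |C'| + 1 ≤ (N : ℝ) :=
    tendsto_natCast_atTop_atTop.eventually_ge_atTop _
  filter_upwards [h2, h3] with N h4 h5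
  rw [one_mul, Real.norm_eq_abs, Real.norm_eq_abs, Real.abs_exp, abs_of_nonneg (by positivity)] at h4
  refine le_trans ?_ h4
  have a1 := le_abs_self C
  have a2 := le_abs_self C'
  have a3 := abs_nonneg C
  have a4 := abs_nonneg C'
  nlinarith

/-! ### Localisation -/

theorem locb (hUPB : S_UPB) {ρ τ τ₁ : ℝ} {a : ℤ} {E : Type} {K : Set E} {Y : ℕ → ℂ → E → ℂ}
    {G : ℂ → E → ℂ} {c₀ L : ℝ} (hρ : 0 < ρ) (hρπ : ρ ≤ π) (hτ : 0 < τ) (hτ₁ : 0 < τ₁)
    (hYd : ∀ N, ∀ p ∈ K, Differentiable ℂ (fun w => Y N w p))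
    (hMW : ∀ ε : ℝ, 0 < ε → ∀ᶠ N : ℕ in atTop, ∀ w ∈ Rc (2 * ρ) (2 * τ), ∀ p ∈ K,
      Y N w p ≠ 0 ∧ |Real.log ‖Y N w p‖ - N * (G w p).re| ≤ ε * N)
    (hc₀ : 0 < c₀) (hL : 0 ≤ L)
    (hdec : ∀ p ∈ K, ∀ x : ℝ, |x| ≤ ρ → (G x p).re ≤ (G 0 p).re - c₀ * x ^ 2)
    (hup : ∀ p ∈ K, ∀ x y : ℝ, |x| ≤ ρ → 0 ≤ y → y ≤ τ₁ →
      (G (x + y * Complex.I) p).re ≤ (G x p).re + L * ((|x| + y) * y))
    (hfar : ∃ κ' : ℝ, 0 < κ' ∧ ∀ᶠ N : ℕ in atTop, ∀ p ∈ K, ∀ x y : ℝ, ρ ≤ |x| → |x| ≤ π →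
      |y| ≤ 1 / N → ‖Y N (x + y * Complex.I) p‖ ≤ Real.exp (N * ((G 0 p).re - κ'))) :
    ∃ κ' : ℝ, 0 < κ' ∧ ∀ᶠ N : ℕ in atTop, ∀ p ∈ K,
      ‖(upp (1 / N) fun w => Ea a N w * (UN N w * Y N w p) * kr N w) -
        (-Complex.I) * ∫ x in (-ρ)..ρ, Ea a N x * Y N x p‖ ≤
        Real.exp (N * ((G 0 p).re - κ')) := by
  obtain ⟨C1, hC1, hU1⟩ := hUPB a
  have hπ := Real.pi_gt_three
  have hU2 := hU1 ρ hρ hρπ
  obtain ⟨κ0, hκ0, hfar⟩ := hfar
  -- the height
  obtain ⟨α, hα⟩ : ∃ α : ℝ, α = |(a : ℝ)| / (2 * π) := ⟨_, rfl⟩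
  have hα0 : 0 ≤ α := by rw [hα]; positivity
  obtain ⟨D1, hD1⟩ : ∃ D1 : ℝ, D1 = (L + α) ^ 2 / (4 * c₀) + L := ⟨_, rfl⟩
  have hD10 : 0 ≤ D1 := by rw [hD1]; positivity
  obtain ⟨D2, hD2⟩ : ∃ D2 : ℝ, D2 = (L + α) * ρ + L := ⟨_, rfl⟩
  have hD20 : 0 ≤ D2 := by rw [hD2]; positivity
  obtain ⟨y₀, hy₀⟩ : ∃ y₀ : ℝ, y₀ = min (min (min τ τ₁) 1)
    (min (1 / (2 * (D1 + 1))) (c₀ * ρ ^ 2 / (2 * (D2 + 1)))) := ⟨_, rfl⟩
  have hy0 : 0 < y₀ := by
    rw [hy₀]
    refine lt_min (lt_min (lt_min hτ hτ₁) one_pos) (lt_min (by positivity) (by positivity))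
  have hyτ : y₀ ≤ τ := by
    rw [hy₀]; exact (min_le_left _ _).trans ((min_le_left _ _).trans (min_le_left _ _))
  have hyτ₁ : y₀ ≤ τ₁ := by
    rw [hy₀]; exact (min_le_left _ _).trans ((min_le_left _ _).trans (min_le_right _ _))
  have hy1 : y₀ ≤ 1 := by
    rw [hy₀]; exact (min_le_left _ _).trans (min_le_right _ _)
  have hyD1 : D1 * y₀ ≤ 1 / 2 := by
    have h : y₀ ≤ 1 / (2 * (D1 + 1)) := by
      rw [hy₀]; exact (min_le_right _ _).trans (min_le_left _ _)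
    rw [le_div_iff₀ (by positivity)] at h
    nlinarith
  have hyD2 : D2 * y₀ ≤ c₀ * ρ ^ 2 / 2 := by
    have h : y₀ ≤ c₀ * ρ ^ 2 / (2 * (D2 + 1)) := by
      rw [hy₀]; exact (min_le_right _ _).trans (min_le_right _ _)
    rw [le_div_iff₀ (by positivity)] at h
    nlinarith
  -- the top
  have htop : ∀ p ∈ K, ∀ x : ℝ, |x| ≤ ρ →
      (G (x + y₀ * Complex.I) p).re + α * (|x| * y₀) - y₀ ≤ (G 0 p).re - y₀ / 2 := by
    intro p hp x hx
    have h1 := hup p hp x y₀ hx hy0.le hyτ₁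
    have h2 := hdec p hp x hx
    have h3 : (L + α) * (|x| * y₀) ≤ c₀ * x ^ 2 + (L + α) ^ 2 / (4 * c₀) * y₀ ^ 2 := by
      have e : c₀ * x ^ 2 + (L + α) ^ 2 / (4 * c₀) * y₀ ^ 2 - (L + α) * (|x| * y₀) =
          (2 * c₀ * |x| - (L + α) * y₀) ^ 2 / (4 * c₀) := by
        have : x ^ 2 = |x| ^ 2 := (sq_abs x).symm
        rw [this]
        field_simp
        ring
      have : 0 ≤ (2 * c₀ * |x| - (L + α) * y₀) ^ 2 / (4 * c₀) := by positivity
      linarith
    have h4 : y₀ * (D1 * y₀) ≤ y₀ * (1 / 2) := mul_le_mul_of_nonneg_left hyD1 hy0.le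
    rw [hD1] at h4
    nlinarith
  -- the sides
  have hside : ∀ p ∈ K, ∀ x y : ℝ, |x| = ρ → 0 ≤ y → y ≤ y₀ →
      (G (x + y * Complex.I) p).re + α * (|x| * y) ≤ (G 0 p).re - c₀ * ρ ^ 2 / 2 := by
    intro p hp x y hx hy hy'
    have h1 := hup p hp x y hx.le hy (hy'.trans hyτ₁)
    have h2 := hdec p hp x hx.le
    have h3 : x ^ 2 = ρ ^ 2 := by rw [← sq_abs, hx]
    rw [h3] at h2
    rw [hx] at h1 ⊢
    have h4 : D2 * y ≤ D2 * y₀ := mul_le_mul_of_nonneg_left hy' hD20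
    have h5 : L * (y * y) ≤ L * (1 * y) :=
      mul_le_mul_of_nonneg_left (mul_le_mul_of_nonneg_right (hy'.trans hy1) hy) hL
    rw [hD2] at h4 hyD2
    nlinarith
  -- the rate
  obtain ⟨κ, hκd⟩ : ∃ κ : ℝ, κ = min κ0 (min (c₀ * ρ ^ 2 / 2) (y₀ / 2)) := ⟨_, rfl⟩
  have hκ : 0 < κ := by
    rw [hκd]
    exact lt_min hκ0 (lt_min (by positivity) (by positivity))
  have hκa : κ ≤ κ0 := by rw [hκd]; exact min_le_left _ _
  have hκb : κ ≤ c₀ * ρ ^ 2 / 2 := by rw [hκd]; exact (min_le_right _ _).trans (min_le_left _ _)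
  have hκc : κ ≤ y₀ / 2 := by rw [hκd]; exact (min_le_right _ _).trans (min_le_right _ _)
  refine ⟨κ / 2, by positivity, ?_⟩
  have hev1 : ∀ᶠ N : ℕ in atTop, (1 : ℝ) / N ≤ y₀ := by
    have : Tendsto (fun N : ℕ => (1 : ℝ) / (N : ℝ)) atTop (𝓝 0) :=
      tendsto_const_div_atTop_nhds_zero_nat _
    exact this.eventually_le_const hy0
  filter_upwards [hMW (κ / 4) (by positivity), hU2, hfar, hev1, eventually_gt_atTop 0,
    nat_exp_ev (show 0 < κ / 4 by positivity) (3 * C1) (6 + 8 * ρ)]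
    with N hN1 hN2 hN3 hN4 hN5 hN6 p hp
  have hN' : (0 : ℝ) < N := by exact_mod_cast hN5
  obtain ⟨V, hV⟩ : ∃ V : ℝ, V = (G 0 p).re := ⟨_, rfl⟩
  have htop := htop p hp
  have hside := hside p hp
  rw [← hV] at htop hside ⊢
  -- the basic bound
  have hYb : ∀ w ∈ Rc (2 * ρ) (2 * τ), ‖Y N w p‖ ≤ Real.exp (N * ((G w p).re + κ / 4)) := by
    intro w hw
    obtain ⟨k1, k2⟩ := hN1 w hw p hp
    rw [← Real.log_le_iff_le_exp (norm_pos_iff.2 k1)]
    have := (abs_le.1 k2).2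
    linarith
  have hb : ∀ x y : ℝ, |x| ≤ ρ → 0 ≤ y → y ≤ y₀ → ‖Ea a N (x + y * Complex.I) *
      Y N (x + y * Complex.I) p‖ ≤
      Real.exp (N * ((G (x + y * Complex.I) p).re + α * (|x| * y) + κ / 4)) := by
    intro x y hx hy hy'
    have hm : ((x : ℂ) + y * Complex.I) ∈ Rc (2 * ρ) (2 * τ) := by
      refine ⟨?_, ?_⟩
      · rw [xy_re]; linarith
      · rw [xy_im, abs_of_nonneg hy]; linarith
    have h1 := hYb _ hm
    have h2 := norm_Ea a N x y
    rw [abs_of_nonneg hy, ← hα] at h2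
    rw [norm_mul]
    refine (mul_le_mul h2 h1 (norm_nonneg _) (Real.exp_pos _).le).trans (le_of_eq ?_)
    rw [← Real.exp_add]
    congr 1
    ring
  have hYdp := hYd N p hp
  have hgd : Differentiable ℂ (fun w => Ea a N w * Y N w p) := (Ea_diff a N).mul hYdp
  obtain ⟨g, hg⟩ : ∃ g : ℂ → ℂ, g = fun w => Ea a N w * Y N w p := ⟨_, rfl⟩
  rw [← hg] at hgd
  have hge : ∀ w, Ea a N w * Y N w p = g w := fun w => by rw [hg]
  obtain ⟨f, hf⟩ : ∃ f : ℂ → ℂ, f = fun w => g w * (uu N w / (1 + uu N w)) := ⟨_, rfl⟩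
  have hfe : ∀ w, f w = g w * (uu N w / (1 + uu N w)) := fun w => by rw [hf]
  -- the far part
  have hA := (hN2 (fun w => UN N w * Y N w p) (3 * N * Real.exp (N * (V - κ0)))
    ((UN_diff N).continuous.mul hYdp.continuous)).1 (by
      intro x y h1 h2 h3
      have k1 := hN3 p hp x y h1 h2 h3
      rw [← hV] at k1
      rw [norm_mul]
      exact mul_le_mul (UN_bd hN5 h3) k1 (norm_nonneg _) (by positivity))
  -- the near part at height `1 / N`
  have hnear : (∫ x in (-ρ)..ρ, Ea a N (x + (1 / N : ℝ) * Complex.I) *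
      (UN N (x + (1 / N : ℝ) * Complex.I) * Y N (x + (1 / N : ℝ) * Complex.I) p) *
        kr N (x + (1 / N : ℝ) * Complex.I)) =
      (-Complex.I) * (∫ x in (-ρ)..ρ, g (x + (1 / N : ℝ) * Complex.I)) +
      2 * Complex.I * (∫ x in (-ρ)..ρ, f (x + (1 / N : ℝ) * Complex.I)) := by
    have hc1 : Continuous (fun x : ℝ => g (x + (1 / N : ℝ) * Complex.I)) :=
      hgd.continuous.comp (by fun_prop)
    have hpos : ∀ x : ℝ, 0 < ((x : ℂ) + (1 / N : ℝ) * Complex.I).im := by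
      intro x
      rw [xy_im]
      positivity
    have hc2 : Continuous (fun x : ℝ => f (x + (1 / N : ℝ) * Complex.I)) := by
      simp only [hfe]
      apply hc1.mul
      apply Continuous.div
      · exact (uu_diff N).continuous.comp (by fun_prop)
      · exact continuous_const.add ((uu_diff N).continuous.comp (by fun_prop))
      · intro x
        exact one_add_ne (uu_lt hN5 (hpos x))
    rw [← intervalIntegral.integral_const_mul, ← intervalIntegral.integral_const_mul,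
      ← intervalIntegral.integral_add ((hc1.const_mul _).intervalIntegrable _ _)
        ((hc2.const_mul _).intervalIntegrable _ _)]
    apply intervalIntegral.integral_congr
    intro x _
    have h1 := UN_kr hN5 (hpos x)
    simp only [hfe, hg]
    linear_combination (Ea a N ((x : ℂ) + (1 / N : ℝ) * Complex.I) *
      Y N ((x : ℂ) + (1 / N : ℝ) * Complex.I) p) * h1
  -- shifting down
  have hdown := rect_eq (f := g) (ρ := ρ) (h := 0) (H := 1 / N) hρ.le (by positivity)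
    (fun w _ _ _ _ => hgd w)
  -- shifting up
  have hupp := rect_eq (f := f) (ρ := ρ) (h := 1 / N) (H := y₀) hρ.le hN4 (by
    intro w _ _ h3 _
    have hw : 0 < w.im := lt_of_lt_of_le (by positivity) h3
    rw [hf]
    exact (hgd w).mul ((uu_diff N w).div ((differentiableAt_const _).add (uu_diff N w))
      (one_add_ne (uu_lt hN5 hw))))
  -- bounds of the sides
  have hs1 : ∀ r : ℝ, |r| = ρ → ‖∫ y in (0 : ℝ)..(1 / N : ℝ), g (r + y * Complex.I)‖ ≤
      Real.exp (N * (V - κ + κ / 4)) := by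
    intro r hr
    have h1 : ∀ y ∈ Set.uIoc (0 : ℝ) (1 / N : ℝ), ‖g (r + y * Complex.I)‖ ≤
        Real.exp (N * (V - κ + κ / 4)) := by
      intro y hy
      rw [Set.uIoc_of_le (by positivity), Set.mem_Ioc] at hy
      have h2 := hb r y hr.le hy.1.le (hy.2.trans hN4)
      have h3 := hside r y hr hy.1.le (hy.2.trans hN4)
      rw [hge] at h2
      refine h2.trans (Real.exp_le_exp.2 (mul_le_mul_of_nonneg_left ?_ hN'.le))
      linarith
    refine (intervalIntegral.norm_integral_le_of_norm_le_const h1).trans ?_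
    have h4 : |(1 / N : ℝ) - 0| ≤ 1 := by
      rw [sub_zero, abs_of_nonneg (by positivity)]
      exact hN4.trans hy1
    calc _ ≤ Real.exp (N * (V - κ + κ / 4)) * 1 :=
          mul_le_mul_of_nonneg_left h4 (Real.exp_pos _).le
      _ = _ := mul_one _
  have hs2 : ∀ r : ℝ, |r| = ρ → ‖∫ y in (1 / N : ℝ)..y₀, f (r + y * Complex.I)‖ ≤
      Real.exp (N * (V - κ + κ / 4)) := by
    intro r hr
    have h1 : ∀ y ∈ Set.uIoc (1 / N : ℝ) y₀, ‖f (r + y * Complex.I)‖ ≤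
        Real.exp (N * (V - κ + κ / 4)) := by
      intro y hy
      rw [Set.uIoc_of_le hN4, Set.mem_Ioc] at hy
      have hy0' : 0 ≤ y := le_trans (by positivity) hy.1.le
      have h2 := hb r y hr.le hy0' hy.2
      have h3 := hside r y hr hy0' hy.2
      have h4 := uu_half hN5 (w := r + y * Complex.I) (by rw [xy_im]; exact hy.1.le)
      have h5 := frac_bd h4
      rw [hge] at h2
      rw [hfe, norm_mul]
      calc _ ≤ Real.exp (N * ((G (r + y * Complex.I) p).re + α * (|r| * y) + κ / 4)) * 1 :=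
            mul_le_mul h2 (by linarith) (norm_nonneg _) (Real.exp_pos _).le
        _ ≤ _ := by
            rw [mul_one]
            refine Real.exp_le_exp.2 (mul_le_mul_of_nonneg_left ?_ hN'.le)
            linarith
    refine (intervalIntegral.norm_integral_le_of_norm_le_const h1).trans ?_
    have h4 : |y₀ - (1 / N : ℝ)| ≤ 1 := by
      rw [abs_of_nonneg (by linarith)]
      have : (0 : ℝ) < 1 / N := by positivity
      linarith
    calc _ ≤ Real.exp (N * (V - κ + κ / 4)) * 1 :=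
          mul_le_mul_of_nonneg_left h4 (Real.exp_pos _).le
      _ = _ := mul_one _
  -- the top
  have ht : ‖∫ x in (-ρ)..ρ, f (x + y₀ * Complex.I)‖ ≤
      4 * ρ * Real.exp (N * (V - κ + κ / 4)) := by
    have h1 : ∀ x ∈ Set.uIoc (-ρ) ρ, ‖f (x + y₀ * Complex.I)‖ ≤
        2 * Real.exp (N * (V - κ + κ / 4)) := by
      intro x hx
      rw [Set.uIoc_of_le (by linarith), Set.mem_Ioc] at hx
      have hx' : |x| ≤ ρ := abs_le.2 ⟨hx.1.le, hx.2⟩
      have h2 := hb x y₀ hx' hy0.le le_rfl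
      have h3 := htop x hx'
      have h4 := uu_half hN5 (w := x + y₀ * Complex.I) (by rw [xy_im]; exact hN4)
      have h5 := frac_bd h4
      rw [norm_uu, xy_im] at h5
      rw [hge] at h2
      rw [hfe, norm_mul]
      calc _ ≤ Real.exp (N * ((G (x + y₀ * Complex.I) p).re + α * (|x| * y₀) + κ / 4)) *
            (2 * Real.exp (-(N * y₀))) :=
            mul_le_mul h2 h5 (norm_nonneg _) (Real.exp_pos _).le
        _ = 2 * Real.exp (N * ((G (x + y₀ * Complex.I) p).re + α * (|x| * y₀) - y₀ + κ / 4)) := by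
            rw [mul_left_comm, ← Real.exp_add]
            congr 2
            ring
        _ ≤ _ := by
            refine mul_le_mul_of_nonneg_left (Real.exp_le_exp.2
              (mul_le_mul_of_nonneg_left ?_ hN'.le)) (by norm_num)
            linarith
    refine (intervalIntegral.norm_integral_le_of_norm_le_const h1).trans (le_of_eq ?_)
    rw [abs_of_nonneg (by linarith)]
    ring
  -- conclusion
  obtain ⟨U, hU⟩ : ∃ U : ℂ, U = upp (1 / N) fun w => Ea a N w * (UN N w * Y N w p) * kr N w :=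
    ⟨_, rfl⟩
  rw [hnear] at hA
  simp only [hge] at hA ⊢
  have hsum : U - (-Complex.I) * ∫ x in (-ρ)..ρ, g x =
      (U - ((-Complex.I) * (∫ x in (-ρ)..ρ, g (x + (1 / N : ℝ) * Complex.I)) +
        2 * Complex.I * (∫ x in (-ρ)..ρ, f (x + (1 / N : ℝ) * Complex.I)))) +
      ((∫ y in (0 : ℝ)..(1 / N : ℝ), g (-ρ + y * Complex.I)) * (-1) +
        (∫ y in (0 : ℝ)..(1 / N : ℝ), g (ρ + y * Complex.I))) +
      2 * Complex.I * (∫ x in (-ρ)..ρ, f (x + y₀ * Complex.I)) +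
      2 * (-(∫ y in (1 / N : ℝ)..y₀, f (-ρ + y * Complex.I)) +
        (∫ y in (1 / N : ℝ)..y₀, f (ρ + y * Complex.I))) := by
    have e0 : (∫ x in (-ρ)..ρ, g (x + ((0 : ℝ) : ℂ) * Complex.I)) = ∫ x in (-ρ)..ρ, g x := by
      simp
    rw [e0] at hdown
    rw [hdown, hupp]
    linear_combination ((∫ y in (0 : ℝ)..(1 / N : ℝ), g (-ρ + y * Complex.I)) -
      (∫ y in (0 : ℝ)..(1 / N : ℝ), g (ρ + y * Complex.I))) * Complex.I_sq +
      (2 * (∫ y in (1 / N : ℝ)..y₀, f (-ρ + y * Complex.I)) -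
        2 * (∫ y in (1 / N : ℝ)..y₀, f (ρ + y * Complex.I))) * Complex.I_sq
  have hsa := hs1 ρ (abs_of_pos hρ)
  have hsb := hs1 (-ρ) (by rw [abs_neg, abs_of_pos hρ])
  have hsc := hs2 ρ (abs_of_pos hρ)
  have hsd := hs2 (-ρ) (by rw [abs_neg, abs_of_pos hρ])
  rw [Complex.ofReal_neg] at hsb hsd
  obtain ⟨W, hW⟩ : ∃ W : ℝ, W = Real.exp (N * (V - κ + κ / 4)) := ⟨_, rfl⟩
  rw [← hW] at hsa hsb hsc hsd ht
  have hW0 : 0 < W := by rw [hW]; exact Real.exp_pos _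
  have hA' : C1 * (3 * N * Real.exp (N * (V - κ0))) ≤ 3 * C1 * N * W := by
    have h1 : Real.exp (N * (V - κ0)) ≤ W := by
      rw [hW]
      exact Real.exp_le_exp.2 (mul_le_mul_of_nonneg_left (by linarith) hN'.le)
    have h2 := mul_le_mul_of_nonneg_left h1 (show 0 ≤ 3 * C1 * N by positivity)
    linarith
  have hfin : (3 * C1 * N + (6 + 8 * ρ)) * W ≤ Real.exp (N * (V - κ / 2)) := by
    have e : Real.exp (N * (V - κ / 2)) = Real.exp (κ / 4 * N) * W := by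
      rw [hW, ← Real.exp_add]
      congr 1
      ring
    rw [e]
    exact mul_le_mul_of_nonneg_right hN6 hW0.le
  rw [← hU] at hA ⊢
  refine le_trans ?_ hfin
  rw [hsum]
  refine (norm_add_le _ _).trans ?_
  have n1 := norm_add_le ((U - ((-Complex.I) * (∫ x in (-ρ)..ρ, g (x + (1 / N : ℝ) * Complex.I)) +
        2 * Complex.I * (∫ x in (-ρ)..ρ, f (x + (1 / N : ℝ) * Complex.I)))) +
      ((∫ y in (0 : ℝ)..(1 / N : ℝ), g (-ρ + y * Complex.I)) * (-1) +
        (∫ y in (0 : ℝ)..(1 / N : ℝ), g (ρ + y * Complex.I))))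
      (2 * Complex.I * (∫ x in (-ρ)..ρ, f (x + y₀ * Complex.I)))
  have n2 := norm_add_le (U - ((-Complex.I) * (∫ x in (-ρ)..ρ, g (x + (1 / N : ℝ) * Complex.I)) +
        2 * Complex.I * (∫ x in (-ρ)..ρ, f (x + (1 / N : ℝ) * Complex.I))))
      ((∫ y in (0 : ℝ)..(1 / N : ℝ), g (-ρ + y * Complex.I)) * (-1) +
        (∫ y in (0 : ℝ)..(1 / N : ℝ), g (ρ + y * Complex.I)))
  have n3 : ‖(∫ y in (0 : ℝ)..(1 / N : ℝ), g (-ρ + y * Complex.I)) * (-1) +
        (∫ y in (0 : ℝ)..(1 / N : ℝ), g (ρ + y * Complex.I))‖ ≤ 2 * W := by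
    refine (norm_add_le _ _).trans ?_
    rw [norm_mul, norm_neg, norm_one, mul_one]
    linarith
  have n4 : ‖2 * Complex.I * (∫ x in (-ρ)..ρ, f (x + y₀ * Complex.I))‖ ≤ 8 * ρ * W := by
    rw [norm_mul, norm_mul, Complex.norm_I, Complex.norm_ofNat]
    linarith
  have n5 : ‖2 * (-(∫ y in (1 / N : ℝ)..y₀, f (-ρ + y * Complex.I)) +
        (∫ y in (1 / N : ℝ)..y₀, f (ρ + y * Complex.I)))‖ ≤ 4 * W := by
    rw [norm_mul, Complex.norm_ofNat]
    have := norm_add_le (-(∫ y in (1 / N : ℝ)..y₀, f (-ρ + y * Complex.I)))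
      (∫ y in (1 / N : ℝ)..y₀, f (ρ + y * Complex.I))
    rw [norm_neg] at this
    linarith
  linarith

end Pool.Agent.TH929.J29
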