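import Pool.Agent.TH929.J29a
import Pool.Agent.W21.AX.LOCX

/-!
# Job 29 (UV-STEPB): the size and the expansion of the integral over the real segment
-/

set_option autoImplicit false
set_option maxHeartbeats 1000000

namespace Pool.Agent.TH929.J29

open Filter Finset Topology Metric
open Pool.Agent.W711.HT hiding XX
open Pool.Agent.W719.AX
open Pool.Agent.W85.HT
open Pool.Agent.W21.AX (ux_comp ux_cst ux_small exp_small)
open Pool.Agent.TH563.UV (UN)
open scoped Real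

/-! ### Elementary facts about even functions -/

lemma even_deriv_zero {G : ℂ → ℂ} {U : Set ℂ} (hU : IsOpen U) (h0 : (0 : ℂ) ∈ U)
    (hd : DifferentiableOn ℂ G U) (hev : ∀ w ∈ U, G (-w) = G w) : deriv G 0 = 0 := by
  have h1 : DifferentiableAt ℂ G 0 := (hd 0 h0).differentiableAt (hU.mem_nhds h0)
  have h2 : HasDerivAt G (deriv G 0) 0 := h1.hasDerivAt
  have h3 : HasDerivAt (fun w => G (-w)) (-(deriv G 0)) 0 := by
    have h4 : HasDerivAt G (deriv G 0) (-0) := by rw [neg_zero]; exact h2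
    have h5 := HasDerivAt.comp (0 : ℂ) h4 (hasDerivAt_neg (0 : ℂ))
    rw [mul_neg, mul_one] at h5
    exact h5
  have h6 : (fun w => G (-w)) =ᶠ[𝓝 0] G := by
    filter_upwards [hU.mem_nhds h0] with w hw
    exact hev w hw
  have h7 := (h2.congr_of_eventuallyEq h6).unique h3
  linear_combination (1 / 2) * h7

lemma convex_rpi {s t : Set ℝ} (hs : Convex ℝ s) (ht : Convex ℝ t) : Convex ℝ (s ×ℂ t) :=
  (hs.linear_preimage Complex.reLm).inter (ht.linear_preimage Complex.imLm)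

lemma convex_Kc (a b : ℝ) : Convex ℝ (Kc a b) := convex_rpi (convex_Icc _ _) (convex_Icc _ _)

/-- growth in the imaginary direction -/
lemma up_bd {ρ τ B : ℝ} (hρ : 0 < ρ) (hτ : 0 < τ) (hB : 0 ≤ B) : ∃ L : ℝ, 0 ≤ L ∧
    ∀ G : ℂ → ℂ, DifferentiableOn ℂ G (Rc (2 * ρ) (2 * τ)) →
      (∀ w ∈ Rc (2 * ρ) (2 * τ), ‖G w‖ ≤ B) → (∀ w ∈ Rc (2 * ρ) (2 * τ), G (-w) = G w) →
      ∀ x y : ℝ, |x| ≤ ρ → |y| ≤ τ →
        ‖G (x + y * Complex.I) - G x‖ ≤ L * ((|x| + |y|) * |y|) := by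
  obtain ⟨r, hr⟩ : ∃ r : ℝ, r = min ρ τ / 4 := ⟨_, rfl⟩
  have hr0 : 0 < r := by rw [hr]; have := lt_min hρ hτ; positivity
  have hrρ : r ≤ ρ / 4 := by rw [hr]; have := min_le_left ρ τ; linarith
  have hrτ : r ≤ τ / 4 := by rw [hr]; have := min_le_right ρ τ; linarith
  refine ⟨B / r / r, by positivity, fun G hd hb hev x y hx hy' => ?_⟩
  have hmem : ∀ (a b : ℝ) (w z : ℂ), |w.re| ≤ a → |w.im| ≤ b → ‖z - w‖ ≤ r →
      |z.re| ≤ a + ρ / 4 ∧ |z.im| ≤ b + τ / 4 := by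
    intro a b w z h1 h2 h3
    have k1 := (Complex.abs_re_le_norm (z - w)).trans h3
    have k2 := (Complex.abs_im_le_norm (z - w)).trans h3
    rw [Complex.sub_re] at k1
    rw [Complex.sub_im] at k2
    have k3 := abs_sub_abs_le_abs_sub z.re w.re
    have k4 := abs_sub_abs_le_abs_sub z.im w.im
    constructor <;> linarith
  have hopen := open_Rc (2 * ρ) (2 * τ)
  -- first derivative
  have h1 : ∀ w : ℂ, |w.re| ≤ 3 / 2 * ρ → |w.im| ≤ 3 / 2 * τ → ‖deriv G w‖ ≤ B / r := by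
    intro w hw1 hw2
    have hsub : closedBall w r ⊆ Rc (2 * ρ) (2 * τ) := by
      intro z hz
      rw [mem_closedBall, dist_eq_norm] at hz
      obtain ⟨k1, k2⟩ := hmem _ _ w z hw1 hw2 hz
      exact ⟨by linarith, by linarith⟩
    refine Complex.norm_deriv_le_of_forall_mem_sphere_norm_le hr0 ?_
      (fun z hz => hb z (hsub (sphere_subset_closedBall hz)))
    exact (hd.mono hsub).diffContOnCl_ball subset_rfl
  have hdd : DifferentiableOn ℂ (deriv G) (Rc (2 * ρ) (2 * τ)) := hd.deriv hopen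
  -- second derivative
  have h2 : ∀ w : ℂ, |w.re| ≤ 5 / 4 * ρ → |w.im| ≤ 5 / 4 * τ → ‖deriv (deriv G) w‖ ≤ B / r / r := by
    intro w hw1 hw2
    have hsub : ∀ z ∈ closedBall w r, |z.re| ≤ 3 / 2 * ρ ∧ |z.im| ≤ 3 / 2 * τ := by
      intro z hz
      rw [mem_closedBall, dist_eq_norm] at hz
      obtain ⟨k1, k2⟩ := hmem _ _ w z hw1 hw2 hz
      exact ⟨by linarith, by linarith⟩
    have hsub2 : closedBall w r ⊆ Rc (2 * ρ) (2 * τ) := fun z hz =>
      ⟨by linarith [(hsub z hz).1], by linarith [(hsub z hz).2]⟩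
    refine Complex.norm_deriv_le_of_forall_mem_sphere_norm_le hr0 ?_
      (fun z hz => h1 z (hsub z (sphere_subset_closedBall hz)).1
        (hsub z (sphere_subset_closedBall hz)).2)
    exact (hdd.mono hsub2).diffContOnCl_ball subset_rfl
  have h00 : (0 : ℂ) ∈ Rc (2 * ρ) (2 * τ) := by
    refine ⟨?_, ?_⟩
    · rw [Complex.zero_re, abs_zero]; linarith
    · rw [Complex.zero_im, abs_zero]; linarith
  have hd0 := even_deriv_zero hopen h00 hd hev
  -- on the rectangle of `x`, `y`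
  have hK : ∀ w ∈ Kc |x| |y|, |w.re| ≤ 5 / 4 * ρ ∧ |w.im| ≤ 5 / 4 * τ ∧ ‖w‖ ≤ |x| + |y| := by
    intro w hw
    rw [Kc_mem] at hw
    have := Complex.norm_le_abs_re_add_abs_im w
    refine ⟨by linarith [hw.1], by linarith [hw.2], by linarith [hw.1, hw.2]⟩
  have hKR : Kc |x| |y| ⊆ Rc (2 * ρ) (2 * τ) := fun w hw =>
    ⟨by linarith [(hK w hw).1], by linarith [(hK w hw).2.1]⟩
  have m0 : (0 : ℂ) ∈ Kc |x| |y| := by
    rw [Kc_mem, Complex.zero_re, Complex.zero_im, abs_zero]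
    exact ⟨abs_nonneg _, abs_nonneg _⟩
  have mx : (x : ℂ) ∈ Kc |x| |y| := by
    rw [Kc_mem, Complex.ofReal_re, Complex.ofReal_im, abs_zero]
    exact ⟨le_rfl, abs_nonneg _⟩
  have mxy : ((x : ℂ) + y * Complex.I) ∈ Kc |x| |y| := by
    rw [Kc_mem, xy_re, xy_im]
    exact ⟨le_rfl, le_rfl⟩
  have h3 : ∀ w ∈ Kc |x| |y|, ‖deriv G w‖ ≤ B / r / r * (|x| + |y|) := by
    intro w hw
    have h4 := (convex_Kc |x| |y|).norm_image_sub_le_of_norm_deriv_le (f := deriv G)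
      (C := B / r / r) (fun z hz => (hdd z (hKR hz)).differentiableAt (hopen.mem_nhds (hKR hz)))
      (fun z hz => h2 z (hK z hz).1 (hK z hz).2.1) m0 hw
    rw [hd0, sub_zero, sub_zero] at h4
    exact h4.trans (mul_le_mul_of_nonneg_left (hK w hw).2.2 (by positivity))
  have h5 := (convex_Kc |x| |y|).norm_image_sub_le_of_norm_deriv_le (f := G)
    (C := B / r / r * (|x| + |y|)) (fun z hz => (hd z (hKR hz)).differentiableAt
      (hopen.mem_nhds (hKR hz))) h3 mx mxy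
  have e : ‖((x : ℂ) + y * Complex.I) - x‖ = |y| := by
    rw [add_sub_cancel_left, norm_mul, Complex.norm_I, mul_one, Complex.norm_real,
      Real.norm_eq_abs]
  rw [e] at h5
  linarith

/-- second derivative at a maximum on the real axis -/
lemma deriv2_le {G : ℂ → ℂ} {U : Set ℂ} {ρ c₀ : ℝ} (hU : IsOpen U) (h0 : (0 : ℂ) ∈ U)
    (hd : DifferentiableOn ℂ G U) (hG0 : deriv G 0 = 0) (hρ : 0 < ρ)
    (hdec : ∀ x : ℝ, |x| ≤ ρ → (G x).re ≤ (G 0).re - c₀ * x ^ 2) :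
    (deriv (deriv G) 0).re ≤ -2 * c₀ := by
  by_contra hcon
  rw [not_le] at hcon
  obtain ⟨h, hh⟩ : ∃ h : ℝ → ℝ, h = fun x : ℝ => (G x).re + c₀ * x ^ 2 := ⟨_, rfl⟩
  have hU' : ∀ᶠ x : ℝ in 𝓝 0, (x : ℂ) ∈ U := by
    have : Tendsto (fun x : ℝ => (x : ℂ)) (𝓝 0) (𝓝 ((0 : ℝ) : ℂ)) :=
      Complex.continuous_ofReal.continuousAt
    exact this.eventually (hU.mem_nhds (by rw [Complex.ofReal_zero]; exact h0))
  have hdh : ∀ x : ℝ, (x : ℂ) ∈ U → HasDerivAt h ((deriv G x).re + 2 * c₀ * x) x := by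
    intro x hx
    have h1 : HasDerivAt G (deriv G x) (x : ℂ) :=
      ((hd x hx).differentiableAt (hU.mem_nhds hx)).hasDerivAt
    have h2 := h1.real_of_complex
    have h3 : HasDerivAt (fun x : ℝ => c₀ * x ^ 2) (2 * c₀ * x) x := by
      exact ((hasDerivAt_pow 2 x).const_mul c₀).congr_deriv (by push_cast; ring)
    rw [hh]
    exact h2.add h3
  have hderiv : deriv h =ᶠ[𝓝 0] fun x : ℝ => (deriv G x).re + 2 * c₀ * x := by
    filter_upwards [hU'] with x hx
    exact (hdh x hx).deriv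
  have hdd : deriv (deriv h) 0 = (deriv (deriv G) 0).re + 2 * c₀ := by
    rw [hderiv.deriv_eq]
    have h1 : HasDerivAt (deriv G) (deriv (deriv G) 0) ((0 : ℝ) : ℂ) := by
      rw [Complex.ofReal_zero]
      exact (((hd.deriv hU) 0 h0).differentiableAt (hU.mem_nhds h0)).hasDerivAt
    have h2 := h1.real_of_complex
    have h3 : HasDerivAt (fun x : ℝ => 2 * c₀ * x) (2 * c₀) 0 := by
      simpa using (hasDerivAt_id (0 : ℝ)).const_mul (2 * c₀)
    exact (h2.add h3).deriv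
  have hd1 : deriv h 0 = 0 := by
    have h1 := (hdh 0 (by rw [Complex.ofReal_zero]; exact h0)).deriv
    rw [h1, Complex.ofReal_zero, hG0]
    simp
  have hcont : ContinuousAt h 0 :=
    (hdh 0 (by rw [Complex.ofReal_zero]; exact h0)).continuousAt
  have hmin := isLocalMin_of_deriv_deriv_pos (f := h) (x₀ := 0) (by rw [hdd]; linarith) hd1 hcont
  have hmax : ∀ᶠ x : ℝ in 𝓝 0, h x ≤ h 0 := by
    have : ∀ᶠ x : ℝ in 𝓝 0, |x| ≤ ρ := by
      have : ∀ᶠ x : ℝ in 𝓝 0, x ∈ ball (0 : ℝ) ρ := ball_mem_nhds 0 hρ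
      filter_upwards [this] with x hx
      rw [mem_ball_zero_iff, Real.norm_eq_abs] at hx
      exact hx.le
    filter_upwards [this] with x hx
    have := hdec x hx
    rw [hh]
    simp only
    rw [Complex.ofReal_zero]
    nlinarith
  have hconst : h =ᶠ[𝓝 0] fun _ => h 0 := by
    filter_upwards [hmin, hmax] with x h1 h2
    exact le_antisymm h2 h1
  have h4 : deriv (deriv h) 0 = 0 := by
    have h5 : deriv h =ᶠ[𝓝 0] fun _ => (0 : ℝ) := by
      have := hconst.deriv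
      filter_upwards [this] with x hx
      rw [hx]
      simp
    rw [h5.deriv_eq]
    simp
  rw [hdd] at h4
  linarith

/-- the outer part of the real segment -/
lemma outer {ρ τ δ : ℝ} {a : ℤ} {E : Type} {K : Set E} {Y : ℕ → ℂ → E → ℂ}
    {G : ℂ → E → ℂ} {c₀ : ℝ} (hρ : 0 < ρ) (hρ1 : ρ ≤ 1) (hτ : 0 < τ) (hδ : 0 < δ) (hδρ : δ ≤ ρ)
    (hYd : ∀ N, ∀ p ∈ K, Differentiable ℂ (fun w => Y N w p))
    (hMW : ∀ ε : ℝ, 0 < ε → ∀ᶠ N : ℕ in atTop, ∀ w ∈ Rc (2 * ρ) (2 * τ), ∀ p ∈ K,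
      Y N w p ≠ 0 ∧ |Real.log ‖Y N w p‖ - N * (G w p).re| ≤ ε * N)
    (hc₀ : 0 < c₀)
    (hdec : ∀ p ∈ K, ∀ x : ℝ, |x| ≤ ρ → (G x p).re ≤ (G 0 p).re - c₀ * x ^ 2) :
    ∃ κ' : ℝ, 0 < κ' ∧ ∀ᶠ N : ℕ in atTop, ∀ p ∈ K,
      ‖(∫ x in (-ρ)..ρ, Ea a N x * Y N x p) - ∫ x in (-δ)..δ, Ea a N x * Y N x p‖ ≤
        Real.exp (N * ((G 0 p).re - κ')) := by
  refine ⟨c₀ * δ ^ 2 / 4, by positivity, ?_⟩
  filter_upwards [hMW (c₀ * δ ^ 2 / 4) (by positivity),
    ev_exp (show 0 < c₀ * δ ^ 2 / 2 by positivity) 2] with N hN1 hN2 p hp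
  have hN' : (0 : ℝ) ≤ N := Nat.cast_nonneg N
  obtain ⟨V, hV⟩ : ∃ V : ℝ, V = (G 0 p).re := ⟨_, rfl⟩
  have hcont : Continuous (fun x : ℝ => Ea a N x * Y N x p) :=
    ((Ea_diff a N).continuous.comp Complex.continuous_ofReal).mul
      ((hYd N p hp).continuous.comp Complex.continuous_ofReal)
  have hb : ∀ x : ℝ, δ ≤ |x| → |x| ≤ ρ → ‖Ea a N x * Y N x p‖ ≤
      Real.exp (N * (V - 3 / 4 * (c₀ * δ ^ 2))) := by
    intro x hx1 hx2
    have hm : (x : ℂ) ∈ Rc (2 * ρ) (2 * τ) := by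
      refine ⟨?_, ?_⟩
      · rw [Complex.ofReal_re]; linarith
      · rw [Complex.ofReal_im, abs_zero]; linarith
    obtain ⟨k1, k2⟩ := hN1 _ hm p hp
    have k3 : ‖Y N x p‖ ≤ Real.exp (N * ((G x p).re + c₀ * δ ^ 2 / 4)) := by
      rw [← Real.log_le_iff_le_exp (norm_pos_iff.2 k1)]
      have := (abs_le.1 k2).2
      linarith
    have k4 := hdec p hp x hx2
    have k5 : δ ^ 2 ≤ x ^ 2 := by
      rw [← sq_abs x]
      exact pow_le_pow_left₀ hδ.le hx1 2
    have k6 := mul_le_mul_of_nonneg_left k5 hc₀.le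
    rw [norm_mul]
    calc ‖Ea a N x‖ * ‖Y N x p‖ ≤ 1 * ‖Y N x p‖ :=
          mul_le_mul_of_nonneg_right (norm_Ea_real a N x) (norm_nonneg _)
      _ ≤ Real.exp (N * ((G x p).re + c₀ * δ ^ 2 / 4)) := by rw [one_mul]; exact k3
      _ ≤ _ := by
          refine Real.exp_le_exp.2 (mul_le_mul_of_nonneg_left ?_ hN')
          rw [hV]
          linarith
  have hsplit : (∫ x in (-ρ)..ρ, Ea a N x * Y N x p) - (∫ x in (-δ)..δ, Ea a N x * Y N x p) =
      (∫ x in (-ρ)..(-δ), Ea a N x * Y N x p) + ∫ x in δ..ρ, Ea a N x * Y N x p := by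
    rw [← intervalIntegral.integral_add_adjacent_intervals (hcont.intervalIntegrable (-ρ) (-δ))
      (hcont.intervalIntegrable (-δ) ρ), ← intervalIntegral.integral_add_adjacent_intervals
      (hcont.intervalIntegrable (-δ) δ) (hcont.intervalIntegrable δ ρ)]
    ring
  have h1 : ‖∫ x in (-ρ)..(-δ), Ea a N x * Y N x p‖ ≤
      Real.exp (N * (V - 3 / 4 * (c₀ * δ ^ 2))) := by
    refine (intervalIntegral.norm_integral_le_of_norm_le_const
      (C := Real.exp (N * (V - 3 / 4 * (c₀ * δ ^ 2)))) ?_).trans ?_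
    · intro x hx
      rw [Set.uIoc_of_le (by linarith), Set.mem_Ioc] at hx
      have hx0 : x < 0 ∨ x ≤ 0 := Or.inr (by linarith [hx.2])
      have hxa : |x| = -x := abs_of_nonpos (by linarith [hx.2])
      exact hb x (by rw [hxa]; linarith [hx.2]) (by rw [hxa]; linarith [hx.1])
    · have : |(-δ) - (-ρ)| ≤ 1 := by
        rw [abs_of_nonneg (by linarith)]
        linarith
      calc _ ≤ Real.exp (N * (V - 3 / 4 * (c₀ * δ ^ 2))) * 1 :=
            mul_le_mul_of_nonneg_left this (Real.exp_pos _).le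
        _ = _ := mul_one _
  have h2 : ‖∫ x in δ..ρ, Ea a N x * Y N x p‖ ≤
      Real.exp (N * (V - 3 / 4 * (c₀ * δ ^ 2))) := by
    refine (intervalIntegral.norm_integral_le_of_norm_le_const
      (C := Real.exp (N * (V - 3 / 4 * (c₀ * δ ^ 2)))) ?_).trans ?_
    · intro x hx
      rw [Set.uIoc_of_le (by linarith), Set.mem_Ioc] at hx
      have hxa : |x| = x := abs_of_nonneg (by linarith [hx.1])
      exact hb x (by rw [hxa]; exact hx.1.le) (by rw [hxa]; exact hx.2)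
    · have : |ρ - δ| ≤ 1 := by
        rw [abs_of_nonneg (by linarith)]
        linarith
      calc _ ≤ Real.exp (N * (V - 3 / 4 * (c₀ * δ ^ 2))) * 1 :=
            mul_le_mul_of_nonneg_left this (Real.exp_pos _).le
        _ = _ := mul_one _
  rw [hsplit, ← hV]
  refine (norm_add_le _ _).trans ?_
  have e : Real.exp (N * (V - c₀ * δ ^ 2 / 4)) =
      Real.exp (c₀ * δ ^ 2 / 2 * N) * Real.exp (N * (V - 3 / 4 * (c₀ * δ ^ 2))) := by
    rw [← Real.exp_add]
    congr 1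
    ring
  rw [e]
  have := mul_le_mul_of_nonneg_right hN2 (Real.exp_pos (N * (V - 3 / 4 * (c₀ * δ ^ 2)))).le
  linarith

/-- the logarithmic size of the integral over the real segment -/
lemma lapB (hLAPC : S_LAPC) (hLOG : S_LOG) {Y : ℕ → ℂ → ℂ} {G : ℂ → ℂ} {a : ℤ} {ρ τ : ℝ}
    (hρ : 0 < ρ) (hτ : 0 < τ)
    (hYd : ∀ᶠ N : ℕ in atTop, DifferentiableOn ℂ (Y N) (Rc (2 * ρ) (2 * τ)))
    (hGd : DifferentiableOn ℂ G (Rc (2 * ρ) (2 * τ))) (hMW : MW Y G (Rc (2 * ρ) (2 * τ)))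
    (hG0 : deriv G 0 = 0) (hneg : (deriv (deriv G) 0).re < 0)
    (hline : ∀ x : ℝ, |x| ≤ ρ → x ≠ 0 → (G x).re < (G 0).re) :
    ∀ ε : ℝ, 0 < ε → ∀ᶠ N : ℕ in atTop, Real.exp (N * ((G 0).re - ε)) ≤
      ‖∫ x in (-ρ)..ρ, Ea a N x * Y N x‖ ∧
      ‖∫ x in (-ρ)..ρ, Ea a N x * Y N x‖ ≤ Real.exp (N * ((G 0).re + ε)) := by
  have hopen : IsOpen (Rc (2 * ρ) (2 * τ)) := open_Rc _ _
  have h00 : (0 : ℂ) ∈ Rc (2 * ρ) (2 * τ) := by
    refine ⟨?_, ?_⟩
    · rw [Complex.zero_re, abs_zero]; linarith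
    · rw [Complex.zero_im, abs_zero]; linarith
  have hconv : Convex ℝ (Rc (2 * ρ) (2 * τ)) := by
    have e : Rc (2 * ρ) (2 * τ) = Set.Ioo (-(2 * ρ)) (2 * ρ) ×ℂ Set.Ioo (-(2 * τ)) (2 * τ) := by
      ext w
      rw [Complex.mem_reProdIm, Set.mem_Ioo, Set.mem_Ioo, ← abs_lt, ← abs_lt]
      rfl
    rw [e]
    exact convex_rpi (convex_Ioo _ _) (convex_Ioo _ _)
  obtain ⟨K, hK⟩ : ∃ K : Set ℂ, K = Kc (3 / 2 * ρ) (3 / 2 * τ) := ⟨_, rfl⟩
  have hKc : IsCompact K := by rw [hK]; exact Kc_compact _ _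
  have hKU : K ⊆ Rc (2 * ρ) (2 * τ) := by
    intro w hw
    rw [hK, Kc_mem] at hw
    exact ⟨by linarith [hw.1], by linarith [hw.2]⟩
  obtain ⟨g, cc, hc1, hgd, hglim⟩ := hLOG Y G _ K hopen hconv hYd hGd hMW hKc hKU
  obtain ⟨U, hU⟩ : ∃ U : Set ℂ, U = Rc (3 / 2 * ρ) (3 / 2 * τ) := ⟨_, rfl⟩
  have hUo : IsOpen U := by rw [hU]; exact open_Rc _ _
  have hUK : U ⊆ K := by
    intro w hw
    rw [hU] at hw
    rw [hK, Kc_mem]
    exact ⟨hw.1.le, hw.2.le⟩
  have hUR := hUK.trans hKU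
  obtain ⟨b, hb⟩ : ∃ b : ℂ, b = Complex.I * a / (4 * π) := ⟨_, rfl⟩
  have hpol : Differentiable ℂ (fun w : ℂ => b * w ^ 2) := by fun_prop
  obtain ⟨V, hV⟩ : ∃ V : ℝ, V = (G 0).re := ⟨_, rfl⟩
  obtain ⟨k, hk⟩ : ∃ k : ℝ, k = 1 - V := ⟨_, rfl⟩
  -- derivatives of the limit potential
  obtain ⟨Q, hQ⟩ : ∃ Q : ℂ → ℂ, Q = fun w => b * w ^ 2 + G w + k := ⟨_, rfl⟩
  have hQd : DifferentiableOn ℂ Q (Rc (2 * ρ) (2 * τ)) := by
    rw [hQ]
    exact (hpol.differentiableOn.add hGd).add_const _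
  have hQ1 : ∀ w ∈ Rc (2 * ρ) (2 * τ), deriv Q w = 2 * b * w + deriv G w := by
    intro w hw
    have h1 : HasDerivAt G (deriv G w) w :=
      ((hGd w hw).differentiableAt (hopen.mem_nhds hw)).hasDerivAt
    have h2 : HasDerivAt (fun w : ℂ => b * w ^ 2) (2 * b * w) w := by
      exact ((hasDerivAt_pow 2 w).const_mul b).congr_deriv (by push_cast; ring)
    rw [hQ]
    exact ((h2.add h1).add_const _).deriv
  have hQ10 : deriv Q 0 = 0 := by
    rw [hQ1 0 h00, hG0]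
    simp
  have hQ2 : deriv (deriv Q) 0 = 2 * b + deriv (deriv G) 0 := by
    have h1 : deriv Q =ᶠ[𝓝 0] fun w => 2 * b * w + deriv G w := by
      filter_upwards [hopen.mem_nhds h00] with w hw
      exact hQ1 w hw
    rw [h1.deriv_eq]
    have h2 : HasDerivAt (deriv G) (deriv (deriv G) 0) 0 :=
      (((hGd.deriv hopen) 0 h00).differentiableAt (hopen.mem_nhds h00)).hasDerivAt
    have h3 : HasDerivAt (fun w : ℂ => 2 * b * w) (2 * b) 0 := by
      simpa using (hasDerivAt_id (0 : ℂ)).const_mul (2 * b)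
    exact (h3.add h2).deriv
  have hbre : b.re = 0 := by
    rw [hb]
    have : Complex.I * a / (4 * π) = (((a : ℝ) / (4 * π) : ℝ) : ℂ) * Complex.I := by
      push_cast
      ring
    rw [this, Complex.re_ofReal_mul, Complex.I_re, mul_zero]
  have hQneg : (deriv (deriv Q) 0).re < 0 := by
    rw [hQ2, Complex.add_re, Complex.mul_re, hbre]
    simpa using hneg
  have hQx : ∀ x : ℝ, (Q x).re = (G x).re + k := by
    intro x
    rw [hQ]
    simp only [Complex.add_re, Complex.ofReal_re]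
    have : (b * (x : ℂ) ^ 2).re = 0 := by
      rw [← Complex.ofReal_pow, Complex.re_mul_ofReal, hbre, zero_mul]
    rw [this]
    ring
  have hQ0 : (Q 0).re = 1 := by
    have := hQx 0
    rw [Complex.ofReal_zero] at this
    rw [this, ← hV, hk]
    ring
  have hlap := hLAPC (fun N w => b * w ^ 2 + g N w + k) (fun _ _ => 1) Q (fun _ => 1)
    U (-ρ) ρ 0 hUo (by
      filter_upwards [hgd] with N hN
      exact ((hpol.differentiableOn.add hN.1).add_const _).mono hUR)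
    (hQd.mono hUR) (by
      have := hglim.mono hUK
      rw [Metric.tendstoUniformlyOn_iff] at this ⊢
      intro ε hε
      filter_upwards [this ε hε] with N hN w hw
      have := hN w hw
      rw [hQ]
      simp only
      rw [dist_add_right, dist_add_left]
      exact this)
    (Eventually.of_forall fun N => differentiableOn_const _) (differentiableOn_const _)
    (by
      rw [Metric.tendstoUniformlyOn_iff]
      intro ε hε
      filter_upwards with N w _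
      rw [dist_self]
      exact hε)
    (by rw [Complex.zero_re]; linarith) (by rw [Complex.zero_re]; linarith) (by
      intro x hx1 hx2
      rw [hU]
      have hx : |x| ≤ ρ := abs_le.2 ⟨hx1, hx2⟩
      refine ⟨?_, ?_⟩
      · simp
        linarith
      · simp
        exact hτ)
    hQ10 hQneg one_ne_zero (by
      intro x hx1 hx2 hx0
      have hx : |x| ≤ ρ := abs_le.2 ⟨hx1, hx2⟩
      rw [Complex.zero_re] at hx0
      have e : ((x : ℂ) + (Complex.im 0 : ℝ) * Complex.I) = x := by simp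
      have h1 := hline x hx hx0
      have h2 := hQx x
      have h3 := hQx 0
      rw [Complex.ofReal_zero] at h3
      rw [e, h2, h3]
      linarith)
  rw [hQ0] at hlap
  -- conclusion
  rw [← hV]
  refine fun ε hε => ?_
  have hb' := bds (I1 := fun N : ℕ => ∫ x in (-ρ)..ρ, (1 : ℂ) *
      Complex.exp (N * (b * ((x : ℂ) + (Complex.im 0 : ℝ) * Complex.I) ^ 2 +
        g N ((x : ℂ) + (Complex.im 0 : ℝ) * Complex.I) + k)))
    (M := fun N : ℕ => ∫ x in (-ρ)..ρ, Complex.exp (N * (b * (x : ℂ) ^ 2 + g N x)))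
    (k := k) (V := V) hk (by
      intro N
      rw [← intervalIntegral.integral_const_mul]
      apply intervalIntegral.integral_congr
      intro x _
      simp only [Complex.zero_im, Complex.ofReal_zero, zero_mul, add_zero, one_mul]
      rw [← Complex.exp_add]
      congr 1
      push_cast
      ring) hlap ε hε
  filter_upwards [hb', hgd] with N h1 h2
  have hint : (∫ x in (-ρ)..ρ, Ea a N x * Y N x) =
      cc N * ∫ x in (-ρ)..ρ, Complex.exp (N * (b * (x : ℂ) ^ 2 + g N x)) := by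
    rw [← intervalIntegral.integral_const_mul]
    apply intervalIntegral.integral_congr
    intro x hx
    rw [Set.uIcc_of_le (by linarith), Set.mem_Icc] at hx
    have hm : (x : ℂ) ∈ Rc (2 * ρ) (2 * τ) := by
      have hx' : |x| ≤ ρ := abs_le.2 hx
      refine ⟨?_, ?_⟩
      · rw [Complex.ofReal_re]; linarith
      · rw [Complex.ofReal_im, abs_zero]; linarith
    simp only
    rw [h2.2 _ hm]
    unfold Ea
    rw [mul_left_comm, ← Complex.exp_add, hb]
    congr 2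
    ring
  rw [hint, norm_mul, hc1, one_mul]
  exact h1

end Pool.Agent.TH929.J29
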