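import Pool.Agent.TH929.J29b

/-!
# Job 29 (UV-STEPB): from the localisation to the expansion
-/

set_option autoImplicit false
set_option maxHeartbeats 1000000

namespace Pool.Agent.TH929.J29

open Filter Finset Topology Metric
open Pool.Agent.W711.HT hiding XX
open Pool.Agent.W719.AX
open Pool.Agent.W85.HT
open Pool.Agent.W21.AX (ux_comp ux_cst ux_small exp_small)
open scoped Real

theorem locxb (hLX : S_LX) (hMUL : S_UXMUL) {ρ₂ τ₂ δ c : ℝ} {m : ℕ} {a : ℤ} {E : Type} {S : Set E}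
    {X : ℕ → ℂ → ℂ} {F : ℂ → ℂ} {A : ℕ → ℂ → ℂ} {k : ℕ → ℂ → E → ℂ} {k' : ℕ → ℂ × E → ℂ}
    {σ : ℂ → E → ℂ} {V : E → ℂ} {W : ℕ → E → ℂ} (hδ : 0 < δ) (hc : 0 < c) (hG : GX ρ₂ τ₂ m X F A)
    (hX : ∀ N, Differentiable ℂ (X N)) (hF : DifferentiableOn ℂ F (Rc ρ₂ τ₂))
    (hz : ∀ u ∈ ball (0 : ℂ) δ, u ∈ Rc ρ₂ τ₂)
    (hB : ∃ B : ℝ, ∀ w ∈ Rc ρ₂ τ₂, ‖F w‖ ≤ B ∧ ∀ p ∈ S, ‖σ w p‖ ≤ B)
    (hk : ∀ N, ∀ p ∈ S, ContinuousOn (fun w => k N w p) (Rc ρ₂ τ₂))
    (hσ : ∀ p ∈ S, DifferentiableOn ℂ (fun w => σ w p) (Rc ρ₂ τ₂))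
    (hux : UX (fun N (x : ℂ × E) => k N x.1 x.2) k' (Rc ρ₂ τ₂ ×ˢ S))
    (hk' : ∀ n, ∀ p ∈ S, DifferentiableOn ℂ (fun w => k' n (w, p)) (Rc ρ₂ τ₂))
    (hk'0 : ∀ x ∈ Rc ρ₂ τ₂ ×ˢ S, k' 0 x ≠ 0)
    (hcrit : ∀ p ∈ S, V p = F 0 + σ 0 p ∧ deriv (fun w => F w + σ w p) 0 = 0 ∧
      (deriv (deriv (fun w => F w + σ w p)) 0).re ≤ -c)
    (hloc : ∀ δ' : ℝ, 0 < δ' → δ' ≤ δ / 2 → ∃ κ' : ℝ, 0 < κ' ∧ ∀ᶠ N : ℕ in atTop, ∀ p ∈ S,
      ‖W N p - (-Complex.I) * ∫ x in (-δ')..δ', Ea a N x *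
        (X N x * (Complex.exp (N * σ x p) * k N x p))‖ ≤ Real.exp (N * ((V p).re - κ'))) :
    ∃ B : ℕ → E → ℂ,
      UX (fun N p => (N : ℂ) ^ (2 * m) * (Real.sqrt N : ℂ) * (-1) ^ (N * m) *
        Complex.exp (-(N * V p)) * W N p) B S ∧ ∀ p ∈ S, B 0 p ≠ 0 := by
  obtain ⟨B, hB⟩ := hB
  obtain ⟨b, hb⟩ : ∃ b : ℂ, b = Complex.I * a / (4 * π) := ⟨_, rfl⟩
  have hbre : b.re = 0 := by
    rw [hb]
    have : Complex.I * a / (4 * π) = (((a : ℝ) / (4 * π) : ℝ) : ℂ) * Complex.I := by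
      push_cast
      ring
    rw [this, Complex.re_ofReal_mul, Complex.I_re, mul_zero]
  -- the exponent
  set q : E → ℂ → ℂ := fun p u => b * u ^ 2 + (F u + σ u p) - V p with hq
  -- the amplitude
  set H : ℕ → E × ℂ → ℂ := fun N x => (-Complex.I) *
    (((N : ℂ) ^ (2 * m) * (-1) ^ (N * m) * Complex.exp (-(N * F x.2)) *
      X N x.2) * k N x.2 x.1) with hH
  set R : ℝ := ρ₂ + τ₂ with hR
  have hopen : IsOpen (Rc ρ₂ τ₂) := open_Rc _ _
  have h0 : (0 : ℂ) ∈ Rc ρ₂ τ₂ := hz 0 (mem_ball_self hδ)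
  have hRc : ∀ w ∈ Rc ρ₂ τ₂, ‖w‖ ≤ R := by
    intro w hw
    have := Complex.norm_le_abs_re_add_abs_im w
    have h1 : |w.re| < ρ₂ := hw.1
    have h2 : |w.im| < τ₂ := hw.2
    linarith
  have hR0 : 0 ≤ R := (norm_nonneg _).trans (hRc 0 h0)
  -- bounds of the exponent
  set Q : ℝ := ‖b‖ * R ^ 2 + (B + B) with hQ
  have hqq : ∀ p ∈ S, ∀ w ∈ Rc ρ₂ τ₂, ‖b * w ^ 2 + (F w + σ w p)‖ ≤ Q := by
    intro p hp w hw
    have h1 := hRc w hw
    have h2 := (hB w hw).1
    have h3 := (hB w hw).2 p hp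
    have e1 : ‖b * w ^ 2‖ ≤ ‖b‖ * R ^ 2 := by
      rw [norm_mul, norm_pow]
      gcongr
    calc ‖b * w ^ 2 + (F w + σ w p)‖ ≤ ‖b * w ^ 2‖ + ‖F w + σ w p‖ := norm_add_le _ _
      _ ≤ ‖b‖ * R ^ 2 + (B + B) := add_le_add e1 ((norm_add_le _ _).trans (add_le_add h2 h3))
  have hFσ : ∀ p ∈ S, DifferentiableOn ℂ (fun w => F w + σ w p) (Rc ρ₂ τ₂) := fun p hp =>
    hF.add (hσ p hp)
  have hq1 : ∀ p ∈ S, ∀ u ∈ Rc ρ₂ τ₂,
      deriv (q p) u = 2 * b * u + deriv (fun w => F w + σ w p) u := by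
    intro p hp u hu
    have h1 : HasDerivAt (fun w => F w + σ w p) (deriv (fun w => F w + σ w p) u) u :=
      (((hFσ p hp) u hu).differentiableAt (hopen.mem_nhds hu)).hasDerivAt
    have h2 : HasDerivAt (fun w : ℂ => b * w ^ 2) (2 * b * u) u := by
      exact ((hasDerivAt_pow 2 u).const_mul b).congr_deriv (by push_cast; ring)
    simp only [hq]
    exact ((h2.add h1).sub_const _).deriv
  have hcond : ∀ p ∈ S, DifferentiableOn ℂ (q p) (ball 0 δ) ∧
      (∀ u ∈ ball (0 : ℂ) δ, ‖q p u‖ ≤ 2 * Q) ∧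
      q p 0 = 0 ∧ deriv (q p) 0 = 0 ∧ (deriv (deriv (q p)) 0).re ≤ -c := by
    intro p hp
    obtain ⟨h2, h3, h4⟩ := hcrit p hp
    refine ⟨?_, ?_, ?_, ?_, ?_⟩
    · have hd : DifferentiableOn ℂ (fun u : ℂ => b * u ^ 2) (ball 0 δ) :=
        (show Differentiable ℂ (fun u : ℂ => b * u ^ 2) by fun_prop).differentiableOn
      exact (hd.add ((hFσ p hp).mono hz)).sub_const _
    · intro u hu
      simp only [hq]
      have e1 := hqq p hp u (hz u hu)
      have e2 := hqq p hp 0 h0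
      have e3 : b * (0 : ℂ) ^ 2 + (F 0 + σ 0 p) = V p := by
        rw [h2]
        ring
      rw [e3] at e2
      have := norm_sub_le (b * u ^ 2 + (F u + σ u p)) (V p)
      linarith
    · simp only [hq]
      rw [h2]
      ring
    · rw [hq1 p hp 0 h0, h3]
      ring
    · have h5 : deriv (q p) =ᶠ[𝓝 0] fun u => 2 * b * u + deriv (fun w => F w + σ w p) u := by
        filter_upwards [hopen.mem_nhds h0] with u hu
        exact hq1 p hp u hu
      rw [h5.deriv_eq]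
      have h6 : HasDerivAt (deriv (fun w => F w + σ w p))
          (deriv (deriv (fun w => F w + σ w p)) 0) 0 :=
        ((((hFσ p hp).deriv hopen) 0 h0).differentiableAt (hopen.mem_nhds h0)).hasDerivAt
      have h7 : HasDerivAt (fun w : ℂ => 2 * b * w) (2 * b) 0 := by
        simpa using (hasDerivAt_id (0 : ℂ)).const_mul (2 * b)
      have h8 : deriv (fun u => 2 * b * u + deriv (fun w => F w + σ w p) u) 0 =
          2 * b + deriv (deriv (fun w => F w + σ w p)) 0 := (h7.add h6).deriv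
      rw [h8, Complex.add_re]
      have : (2 * b : ℂ).re = 0 := by
        rw [Complex.mul_re, hbre]
        simp
      rw [this, zero_add]
      exact h4
  obtain ⟨δ', hδ', hδδ, hLap⟩ := hLX δ (2 * Q) c hδ hc
  set η : ℝ := min δ' (δ / 2) with hη
  have hη0 : 0 < η := lt_min hδ' (by linarith)
  -- expansion of the amplitude
  have hmem : ∀ x ∈ S ×ˢ ball (0 : ℂ) δ, x.2 ∈ Rc ρ₂ τ₂ := fun x hx => hz x.2 hx.2
  have u1 : UX (fun (_ : ℕ) (x : E × ℂ) => -Complex.I)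
      (fun n x => if n = 0 then -Complex.I else 0) (S ×ˢ ball (0 : ℂ) δ) := by
    refine ux_cst (fun x : E × ℂ => -Complex.I) _ 1 (fun x hx => ?_)
    rw [norm_neg, Complex.norm_I]
  have u2 := ux_comp hG.ux (fun x : E × ℂ => x.2) (S ×ˢ ball (0 : ℂ) δ) hmem
  have u3 := ux_comp hux (fun x : E × ℂ => (x.2, x.1)) (S ×ˢ ball (0 : ℂ) δ)
    (fun x hx => ⟨hmem x hx, hx.1⟩)
  have u23 := hMUL _ _ _ _ _ _ u2 u3
  have u123 := hMUL _ _ _ _ _ _ u1 u23
  set h : ℕ → E × ℂ → ℂ := cv (fun n x => if n = 0 then -Complex.I else 0)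
    (cv (fun n x => A n x.2) (fun n x => k' n (x.2, x.1))) with hh
  have hHh : UX H h (S ×ˢ ball (0 : ℂ) δ) := u123
  have hh0 : ∀ p, h 0 (p, 0) = -Complex.I * (A 0 0 * k' 0 (0, p)) := by
    intro p
    simp [hh, cv]
  have hcont : ∀ᶠ N : ℕ in atTop, ∀ p ∈ S, ContinuousOn (fun u => H N (p, u)) (ball 0 δ) := by
    refine Eventually.of_forall fun N p hp => ?_
    have c1 : ContinuousOn (fun w : ℂ => (-Complex.I) *
        (((N : ℂ) ^ (2 * m) * (-1) ^ (N * m) * Complex.exp (-(N * F w)) * X N w) * k N w p))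
        (Rc ρ₂ τ₂) := by
      have hFc := hF.continuousOn
      have hkc := hk N p hp
      have hXc := (hX N).continuous.continuousOn (s := Rc ρ₂ τ₂)
      refine continuousOn_const.mul (ContinuousOn.mul (ContinuousOn.mul (ContinuousOn.mul
        continuousOn_const ?_) hXc) hkc)
      exact (continuousOn_const.mul hFc).neg.cexp
    exact c1.mono hz
  have hdiff : ∀ n, ∀ p ∈ S, DifferentiableOn ℂ (fun u => h n (p, u)) (ball 0 δ) := by
    intro n p hp
    have d1 : ∀ i : ℕ, DifferentiableOn ℂ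
        (fun u : ℂ => (if i = 0 then -Complex.I else 0 : ℂ)) (ball 0 δ) :=
      fun i => differentiableOn_const _
    have d2 : ∀ i : ℕ, DifferentiableOn ℂ (fun u : ℂ => A i u) (ball 0 δ) :=
      fun i => (hG.an i).mono hz
    have d3 : ∀ i : ℕ, DifferentiableOn ℂ (fun u : ℂ => k' i (u, p)) (ball 0 δ) :=
      fun i => (hk' i p hp).mono hz
    simp only [hh, cv]
    refine DifferentiableOn.fun_sum fun i _ => (d1 i).mul ?_
    exact DifferentiableOn.fun_sum fun j _ => (d2 j).mul (d3 _)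
  obtain ⟨A', hA', hA'0⟩ := hLap η hη0 (min_le_left _ _) E S q H h hcond hcont hdiff hHh
  obtain ⟨κ', hκ', hW⟩ := hloc η hη0 (min_le_right _ _)
  refine ⟨A', ux_small hA' (fun K => ⟨1, ?_⟩), ?_⟩
  · filter_upwards [hW, exp_small κ' hκ' (2 * m + 1) K, eventually_ge_atTop 1] with N h1 h2 h3 p hp
    have hN1 : (1 : ℝ) ≤ N := by exact_mod_cast h3
    -- the integrands agree
    have e1 : (Real.sqrt N : ℂ) * ∫ x in (-η)..η, Complex.exp (N * q p x) * H N (p, x) =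
        (N : ℂ) ^ (2 * m) * (Real.sqrt N : ℂ) * (-1) ^ (N * m) *
          Complex.exp (-(N * V p)) * ((-Complex.I) * ∫ x in (-η)..η, Ea a N x *
            (X N x * (Complex.exp (N * σ x p) * k N x p))) := by
      have e2 : (N : ℂ) ^ (2 * m) * (Real.sqrt N : ℂ) * (-1) ^ (N * m) *
          Complex.exp (-(N * V p)) * ((-Complex.I) * ∫ x in (-η)..η, Ea a N x *
            (X N x * (Complex.exp (N * σ x p) * k N x p))) = (Real.sqrt N : ℂ) * (((N : ℂ) ^ (2 * m) *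
            (-1) ^ (N * m) * Complex.exp (-(N * V p)) * (-Complex.I)) * ∫ x in (-η)..η, Ea a N x *
            (X N x * (Complex.exp (N * σ x p) * k N x p))) := by ring
      rw [e2]
      congr 1
      rw [← intervalIntegral.integral_const_mul]
      apply intervalIntegral.integral_congr
      intro x _
      simp only [hH, hq, Ea]
      have e3 : Complex.exp (N * (b * (x : ℂ) ^ 2 + (F x + σ x p) - V p)) =
          Complex.exp (-(N * V p)) *
            Complex.exp (Complex.I * a * N * (x : ℂ) ^ 2 / (4 * π)) * Complex.exp (N * σ x p) *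
            Complex.exp (N * F x) := by
        rw [← Complex.exp_add, ← Complex.exp_add, ← Complex.exp_add, hb]
        congr 1
        ring
      have e4 : Complex.exp (N * F x) * Complex.exp (-(N * F x)) = 1 := by
        rw [← Complex.exp_add, add_neg_cancel, Complex.exp_zero]
      rw [e3]
      calc _ = (N : ℂ) ^ (2 * m) * (-1) ^ (N * m) * Complex.exp (-(N * V p)) * (-Complex.I) *
            (Complex.exp (Complex.I * a * N * (x : ℂ) ^ 2 / (4 * π)) * (X N x *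
              (Complex.exp (N * σ x p) * k N x p))) *
              (Complex.exp (N * F x) * Complex.exp (-(N * F x))) := by ring
        _ = _ := by
          rw [e4, mul_one]
    rw [e1, ← mul_sub, norm_mul]
    have e6 := h1 p hp
    have e7 : ‖(N : ℂ) ^ (2 * m) * (Real.sqrt N : ℂ) * (-1) ^ (N * m) *
        Complex.exp (-(N * V p))‖ = (N : ℝ) ^ (2 * m) * Real.sqrt N *
          Real.exp (-(N * (V p).re)) := by
      rw [norm_mul, norm_mul, norm_mul, norm_pow, norm_pow, norm_neg, norm_one, one_pow, mul_one,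
        Complex.norm_natCast, Complex.norm_real, Real.norm_of_nonneg (Real.sqrt_nonneg _),
        Complex.norm_exp]
      congr 2
      simp
    rw [e7]
    have e8 : Real.sqrt N ≤ N := by
      rw [Real.sqrt_le_left (by positivity)]
      nlinarith
    calc (N : ℝ) ^ (2 * m) * Real.sqrt N * Real.exp (-(N * (V p).re)) * _
        ≤ (N : ℝ) ^ (2 * m) * N * Real.exp (-(N * (V p).re)) *
          Real.exp (N * ((V p).re - κ')) := by
          gcongr
      _ = (N : ℝ) ^ (2 * m + 1) * Real.exp (-(κ' * N)) := by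
          rw [mul_assoc, ← Real.exp_add, pow_succ]
          congr 2
          ring
      _ ≤ 1 / (N : ℝ) ^ K := h2
  · intro p hp
    rw [hA'0 p hp, hh0 p]
    have h4 := (hcond p hp).2.2.2.2
    refine mul_ne_zero (mul_ne_zero (neg_ne_zero.2 Complex.I_ne_zero)
      (mul_ne_zero (hG.nz _ h0) (hk'0 _ ⟨h0, hp⟩))) ?_
    rw [Ne, Complex.cpow_eq_zero_iff]
    rintro ⟨h5, -⟩
    have h6 : deriv (deriv (q p)) 0 ≠ 0 := by
      intro h7
      rw [h7] at h4
      simp at h4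
      linarith
    have h8 : (2 * (π : ℂ)) ≠ 0 := by
      have := Complex.ofReal_ne_zero.2 Real.pi_ne_zero
      exact mul_ne_zero two_ne_zero this
    exact (div_ne_zero h8 (neg_ne_zero.2 h6)) h5

/-- concavity of the kernel exponent on the real axis -/
lemma s_dec {ρ τ κ c : ℝ} {s dl : ℂ → ℂ → ℂ} (hK : KD ρ τ κ c s dl) {p : ℂ}
    (hp : p ∈ Rc (3 * ρ) (3 * τ)) {x : ℝ} (hx : |x| ≤ ρ) :
    (s x p).re ≤ (s 0 p).re - c / 2 * x ^ 2 := by
  obtain ⟨hρ0, hρ1⟩ := hK.hρ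
  obtain ⟨hτ0, hτ1⟩ := hK.hτ
  have hopen : IsOpen (Rc (3 * ρ) (3 * τ)) := open_Rc _ _
  have hsd : DifferentiableOn ℂ (fun w => s w p) (Rc (3 * ρ) (3 * τ)) := by
    have : DifferentiableOn ℂ (fun w : ℂ => (w, p)) (Rc (3 * ρ) (3 * τ)) :=
      (differentiable_id.prodMk (differentiable_const p)).differentiableOn
    exact hK.san.comp this (fun w hw => ⟨hw, hp⟩)
  have hmem : ∀ y : ℝ, y ∈ Set.Icc 0 ρ → (y : ℂ) ∈ Rc (3 * ρ) (3 * τ) := by
    intro y hy
    refine ⟨?_, ?_⟩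
    · rw [Complex.ofReal_re, abs_of_nonneg hy.1]
      linarith [hy.2]
    · rw [Complex.ofReal_im, abs_zero]
      linarith
  have h00 : (0 : ℂ) ∈ Rc (3 * ρ) (3 * τ) := by
    have := hmem 0 ⟨le_rfl, hρ0.le⟩
    rwa [Complex.ofReal_zero] at this
  have hd0 : deriv (fun w => s w p) 0 = 0 :=
    even_deriv_zero hopen h00 hsd (fun w hw => hK.ev w hw p hp)
  obtain ⟨g, hg⟩ : ∃ g : ℝ → ℝ, g = fun y : ℝ => (deriv (fun w => s w p) y).re + c * y :=
    ⟨_, rfl⟩
  obtain ⟨f, hf⟩ : ∃ f : ℝ → ℝ, f = fun y : ℝ => (s y p).re + c / 2 * y ^ 2 := ⟨_, rfl⟩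
  have hgd : ∀ y ∈ Set.Icc 0 ρ,
      HasDerivAt g ((deriv (deriv (fun w => s w p)) y).re + c) y := by
    intro y hy
    have h1 : HasDerivAt (deriv (fun w => s w p)) (deriv (deriv (fun w => s w p)) y) (y : ℂ) :=
      ((hsd.deriv hopen) y (hmem y hy)).differentiableAt (hopen.mem_nhds (hmem y hy)) |>.hasDerivAt
    have h2 := h1.real_of_complex
    have h3 : HasDerivAt (fun y : ℝ => c * y) c y := by
      simpa using (hasDerivAt_id y).const_mul c
    rw [hg]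
    exact h2.add h3
  have hfd : ∀ y ∈ Set.Icc 0 ρ, HasDerivAt f (g y) y := by
    intro y hy
    have h1 : HasDerivAt (fun w => s w p) (deriv (fun w => s w p) y) (y : ℂ) :=
      (hsd y (hmem y hy)).differentiableAt (hopen.mem_nhds (hmem y hy)) |>.hasDerivAt
    have h2 := h1.real_of_complex
    have h3 : HasDerivAt (fun y : ℝ => c / 2 * y ^ 2) (c * y) y := by
      exact ((hasDerivAt_pow 2 y).const_mul (c / 2)).congr_deriv (by push_cast; ring)
    rw [hf, hg]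
    exact h2.add h3
  have hga : AntitoneOn g (Set.Icc 0 ρ) := by
    apply antitoneOn_of_deriv_nonpos (convex_Icc 0 ρ)
    · exact fun y hy => (hgd y hy).continuousAt.continuousWithinAt
    · intro y hy
      rw [interior_Icc] at hy
      exact (hgd y ⟨hy.1.le, hy.2.le⟩).differentiableAt.differentiableWithinAt
    · intro y hy
      rw [interior_Icc] at hy
      rw [(hgd y ⟨hy.1.le, hy.2.le⟩).deriv]
      have := hK.conc y (hmem y ⟨hy.1.le, hy.2.le⟩) p hp
      linarith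
  have hg0 : g 0 = 0 := by
    rw [hg]
    simp [hd0]
  have hfa : AntitoneOn f (Set.Icc 0 ρ) := by
    apply antitoneOn_of_deriv_nonpos (convex_Icc 0 ρ)
    · exact fun y hy => (hfd y hy).continuousAt.continuousWithinAt
    · intro y hy
      rw [interior_Icc] at hy
      exact (hfd y ⟨hy.1.le, hy.2.le⟩).differentiableAt.differentiableWithinAt
    · intro y hy
      rw [interior_Icc] at hy
      rw [(hfd y ⟨hy.1.le, hy.2.le⟩).deriv, ← hg0]
      exact hga ⟨le_rfl, hρ0.le⟩ ⟨hy.1.le, hy.2.le⟩ hy.1.le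
  have key : ∀ y : ℝ, 0 ≤ y → y ≤ ρ → (s y p).re ≤ (s 0 p).re - c / 2 * y ^ 2 := by
    intro y hy0 hyρ
    have := hfa ⟨le_rfl, hρ0.le⟩ ⟨hy0, hyρ⟩ hy0
    rw [hf] at this
    simp at this
    linarith
  rcases le_total 0 x with h | h
  · rw [abs_of_nonneg h] at hx
    exact key x h hx
  · rw [abs_of_nonpos h] at hx
    have h1 := key (-x) (by linarith) hx
    have hm := hmem (-x) ⟨by linarith, hx⟩
    have h2 := hK.ev _ hm p hp
    have e : (-((-x : ℝ) : ℂ)) = x := by push_cast; ring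
    rw [e] at h2
    rw [← h2] at h1
    have e2 : (-x) ^ 2 = x ^ 2 := by ring
    rw [e2] at h1
    exact h1

end Pool.Agent.TH929.J29
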